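import Pool.Agent.H6.Squares.Window

/-!
# From the `L⁴` norm of an exponential sum over squares to the weighted energy
-/

namespace Pool.Agent.H6.Squares

open Finset Complex MeasureTheory

/-- `e (n θ)` -/
noncomputable def ee (n : ℤ) (θ : ℝ) : ℂ := Complex.exp (2 * Real.pi * Complex.I * n * θ)

lemma ee_add (m n : ℤ) (θ : ℝ) : ee (m + n) θ = ee m θ * ee n θ := by
  unfold ee
  rw [← Complex.exp_add]
  push_cast
  ring_nf

lemma conj_ee (n : ℤ) (θ : ℝ) : (starRingEnd ℂ) (ee n θ) = ee (-n) θ := by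
  unfold ee
  rw [← Complex.exp_conj]
  simp only [map_mul, Complex.conj_I, Complex.conj_ofReal, map_ofNat, map_intCast]
  push_cast
  ring_nf

lemma continuous_ee (n : ℤ) : Continuous (ee n) := by
  unfold ee
  fun_prop

lemma integral_ee (n : ℤ) : ∫ θ in (0 : ℝ)..1, ee n θ = if n = 0 then 1 else 0 := by
  unfold ee
  by_cases hn : n = 0
  · subst hn
    simp
  · rw [if_neg hn]
    have hc : (2 * Real.pi * Complex.I * n : ℂ) ≠ 0 := by
      have h1 : (n : ℂ) ≠ 0 := by exact_mod_cast hn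
      have h2 : (Real.pi : ℂ) ≠ 0 := by exact_mod_cast Real.pi_ne_zero
      simp [h1]
    rw [integral_exp_mul_complex hc]
    have h1 : Complex.exp (2 * Real.pi * Complex.I * n * ((1 : ℝ) : ℂ)) = 1 := by
      have : (2 * Real.pi * Complex.I * n * ((1 : ℝ) : ℂ)) = n * (2 * Real.pi * Complex.I) := by
        push_cast; ring
      rw [this, Complex.exp_int_mul_two_pi_mul_I]
    rw [h1]
    simp

/-- the exponential sum with square frequencies -/
noncomputable def esum (A : Finset ℕ) (f : ℕ → ℂ) (θ : ℝ) : ℂ :=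
  ∑ k ∈ A, f k * ee ((k : ℤ) ^ 2) θ

lemma continuous_esum (A : Finset ℕ) (f : ℕ → ℂ) : Continuous (esum A f) := by
  unfold esum
  exact continuous_finsetSum _ fun k _ => continuous_const.mul (continuous_ee _)

/-- coefficient of a quadruple -/
noncomputable def cf (f : ℕ → ℂ) (q : (ℕ × ℕ) × (ℕ × ℕ)) : ℂ :=
  (f q.1.1 * (starRingEnd ℂ) (f q.1.2)) * ((starRingEnd ℂ) (f q.2.1) * f q.2.2)

lemma norm_cf (f : ℕ → ℂ) (q : (ℕ × ℕ) × (ℕ × ℕ)) :
    ‖cf f q‖ = (‖f q.1.1‖ * ‖f q.1.2‖) * (‖f q.2.1‖ * ‖f q.2.2‖) := by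
  unfold cf
  simp

lemma norm_esum_pow (A : Finset ℕ) (f : ℕ → ℂ) (θ : ℝ) :
    ((‖esum A f θ‖ ^ 4 : ℝ) : ℂ)
      = ∑ q ∈ (A ×ˢ A) ×ˢ (A ×ˢ A), cf f q * ee (dd q.1 - dd q.2) θ := by
  have h1 : esum A f θ * (starRingEnd ℂ) (esum A f θ)
      = ∑ i ∈ A ×ˢ A, (f i.1 * (starRingEnd ℂ) (f i.2)) * ee (dd i) θ := by
    unfold esum
    rw [map_sum, sum_mul_sum, ← sum_product']
    refine sum_congr rfl fun i _ => ?_
    rw [map_mul, conj_ee]
    have : dd i = (i.1 : ℤ) ^ 2 + -((i.2 : ℤ) ^ 2) := by unfold dd; ring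
    rw [this, ee_add]
    ring
  have h2 : (starRingEnd ℂ) (esum A f θ) * esum A f θ
      = ∑ j ∈ A ×ˢ A, ((starRingEnd ℂ) (f j.1) * f j.2) * ee (-dd j) θ := by
    unfold esum
    rw [map_sum, sum_mul_sum, ← sum_product']
    refine sum_congr rfl fun j _ => ?_
    rw [map_mul, conj_ee]
    have : -dd j = -((j.1 : ℤ) ^ 2) + ((j.2 : ℤ) ^ 2) := by unfold dd; ring
    rw [this, ee_add]
    ring
  have h3 : ((‖esum A f θ‖ ^ 4 : ℝ) : ℂ)
      = (esum A f θ * (starRingEnd ℂ) (esum A f θ)) *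
        ((starRingEnd ℂ) (esum A f θ) * esum A f θ) := by
    have e1 : esum A f θ * (starRingEnd ℂ) (esum A f θ) = ((‖esum A f θ‖ ^ 2 : ℝ) : ℂ) := by
      rw [Complex.mul_conj, Complex.normSq_eq_norm_sq]
    have e2 : (starRingEnd ℂ) (esum A f θ) * esum A f θ = ((‖esum A f θ‖ ^ 2 : ℝ) : ℂ) := by
      rw [mul_comm, e1]
    rw [e2, e1]
    push_cast
    ring
  rw [h3, h1, h2, sum_mul_sum, ← sum_product']
  refine sum_congr rfl fun q _ => ?_
  rw [sub_eq_add_neg, ee_add]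
  unfold cf
  ring

/-- the fourth moment is at most the weighted energy -/
theorem integral_le_energy (A : Finset ℕ) (f : ℕ → ℂ) :
    ∫ θ in (0 : ℝ)..1, ‖esum A f θ‖ ^ 4
      ≤ ∑ q ∈ allq A, (‖f q.1.1‖ * ‖f q.1.2‖) * (‖f q.2.1‖ * ‖f q.2.2‖) := by
  have h1 : ((∫ θ in (0 : ℝ)..1, ‖esum A f θ‖ ^ 4 : ℝ) : ℂ) = ∑ q ∈ allq A, cf f q := by
    rw [← intervalIntegral.integral_ofReal]
    have e1 : ∀ θ : ℝ, ((‖esum A f θ‖ ^ 4 : ℝ) : ℂ)
      = ∑ q ∈ (A ×ˢ A) ×ˢ (A ×ˢ A), cf f q * ee (dd q.1 - dd q.2) θ := norm_esum_pow A f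
    simp_rw [e1]
    rw [intervalIntegral.integral_finsetSum]
    · simp_rw [intervalIntegral.integral_const_mul, integral_ee]
      unfold allq
      rw [sum_filter]
      refine sum_congr rfl fun q _ => ?_
      by_cases h : dd q.1 = dd q.2
      · rw [if_pos (sub_eq_zero.2 h), if_pos h, mul_one]
      · rw [if_neg (sub_ne_zero.2 h), if_neg h, mul_zero]
    · intro q _
      exact (continuous_const.mul (continuous_ee _)).intervalIntegrable _ _
  have h0 : 0 ≤ ∫ θ in (0 : ℝ)..1, ‖esum A f θ‖ ^ 4 :=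
    intervalIntegral.integral_nonneg (by norm_num) fun θ _ => by positivity
  calc ∫ θ in (0 : ℝ)..1, ‖esum A f θ‖ ^ 4
      = ‖((∫ θ in (0 : ℝ)..1, ‖esum A f θ‖ ^ 4 : ℝ) : ℂ)‖ := by
        rw [Complex.norm_real, Real.norm_of_nonneg h0]
    _ = ‖∑ q ∈ allq A, cf f q‖ := by rw [h1]
    _ ≤ ∑ q ∈ allq A, ‖cf f q‖ := norm_sum_le _ _
    _ = _ := sum_congr rfl fun q _ => norm_cf f q

end Pool.Agent.H6.Squares
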