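import Pool.Agent.H6.Squares.Fourier

/-!
# The sharp `L⁴` bound for all exponential sums with frequencies in `{1², ..., N²}`
-/

namespace Pool.Agent.H6.Squares

open Finset Complex MeasureTheory

/-- the fourth moment -/
noncomputable def I4 (A : Finset ℕ) (f : ℕ → ℂ) : ℝ := ∫ θ in (0 : ℝ)..1, ‖esum A f θ‖ ^ 4

lemma I4_nonneg (A : Finset ℕ) (f : ℕ → ℂ) : 0 ≤ I4 A f :=
  intervalIntegral.integral_nonneg (by norm_num) fun θ _ => by positivity

lemma integral_four_zero (A A' B B' : Finset ℕ) (f : ℕ → ℂ)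
    (h : ∀ a ∈ A, ∀ a' ∈ A', ∀ b ∈ B, ∀ b' ∈ B', a ^ 2 + a' ^ 2 ≠ b ^ 2 + b' ^ 2) :
    ∫ θ in (0 : ℝ)..1, (esum A f θ * esum A' f θ) *
      ((starRingEnd ℂ) (esum B f θ) * (starRingEnd ℂ) (esum B' f θ)) = 0 := by
  have h1 : ∀ θ : ℝ, (esum A f θ * esum A' f θ) *
      ((starRingEnd ℂ) (esum B f θ) * (starRingEnd ℂ) (esum B' f θ))
      = ∑ q ∈ (A ×ˢ A') ×ˢ (B ×ˢ B'), ((f q.1.1 * f q.1.2) * ((starRingEnd ℂ) (f q.2.1) *
        (starRingEnd ℂ) (f q.2.2))) * ee (((q.1.1 : ℤ) ^ 2 + (q.1.2 : ℤ) ^ 2) +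
          (-((q.2.1 : ℤ) ^ 2) + -((q.2.2 : ℤ) ^ 2))) θ := by
    intro θ
    have e1 : esum A f θ * esum A' f θ
        = ∑ i ∈ A ×ˢ A', (f i.1 * f i.2) * ee ((i.1 : ℤ) ^ 2 + (i.2 : ℤ) ^ 2) θ := by
      unfold esum
      rw [sum_mul_sum, ← sum_product']
      refine sum_congr rfl fun i _ => ?_
      rw [ee_add]
      ring
    have e2 : (starRingEnd ℂ) (esum B f θ) * (starRingEnd ℂ) (esum B' f θ)
        = ∑ i ∈ B ×ˢ B', ((starRingEnd ℂ) (f i.1) * (starRingEnd ℂ) (f i.2)) *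
          ee (-((i.1 : ℤ) ^ 2) + -((i.2 : ℤ) ^ 2)) θ := by
      unfold esum
      rw [map_sum, map_sum, sum_mul_sum, ← sum_product']
      refine sum_congr rfl fun i _ => ?_
      rw [map_mul, map_mul, conj_ee, conj_ee, ee_add]
      ring
    rw [e1, e2, sum_mul_sum, ← sum_product']
    refine sum_congr rfl fun q _ => ?_
    rw [ee_add _ (-((q.2.1 : ℤ) ^ 2) + -((q.2.2 : ℤ) ^ 2))]
    ring
  simp_rw [h1]
  rw [intervalIntegral.integral_finsetSum]
  · refine sum_eq_zero fun q hq => ?_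
    rw [intervalIntegral.integral_const_mul, integral_ee, if_neg, mul_zero]
    simp only [mem_product] at hq
    intro h0
    apply h _ hq.1.1 _ hq.1.2 _ hq.2.1 _ hq.2.2
    have : ((q.1.1 : ℤ) ^ 2 + (q.1.2 : ℤ) ^ 2) = ((q.2.1 : ℤ) ^ 2 + (q.2.2 : ℤ) ^ 2) := by
      linarith
    exact_mod_cast this
  · intro q _
    exact (continuous_const.mul (continuous_ee _)).intervalIntegrable _ _

lemma esum_union {A B : Finset ℕ} (h : Disjoint A B) (f : ℕ → ℂ) (θ : ℝ) :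
    esum (A ∪ B) f θ = esum A f θ + esum B f θ := by
  unfold esum
  exact sum_union h

/-- orthogonality step -/
lemma I4_union_le {A B : Finset ℕ} (hdisj : Disjoint A B) (hpos : ∀ b ∈ B, 0 < b)
    (hsep : ∀ a ∈ A, ∀ b ∈ B, 3 * a ≤ 2 * b) (f : ℕ → ℂ) :
    I4 (A ∪ B) f ≤ I4 A f + 8 * (∫ θ in (0 : ℝ)..1, ‖esum A f θ‖ ^ 2 * ‖esum B f θ‖ ^ 2)
      + 2 * I4 B f := by
  have hcA := continuous_esum A f
  have hcB := continuous_esum B f
  -- pointwise expansion
  have h1 : ∀ θ : ℝ, ‖esum (A ∪ B) f θ‖ ^ 4 = ‖esum A f θ‖ ^ 4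
      + ‖esum B f θ * (2 * esum A f θ + esum B f θ)‖ ^ 2
      + 2 * ((esum A f θ * esum A f θ) *
        (starRingEnd ℂ) (esum B f θ * (2 * esum A f θ + esum B f θ))).re := by
    intro θ
    rw [esum_union hdisj]
    set x := esum A f θ
    set y := esum B f θ
    have e1 : ‖x + y‖ ^ 4 = ‖x * x + y * (2 * x + y)‖ ^ 2 := by
      have : x * x + y * (2 * x + y) = (x + y) ^ 2 := by ring
      rw [this, norm_pow]
      ring
    rw [e1]
    have e2 : ∀ u v : ℂ, ‖u + v‖ ^ 2 = ‖u‖ ^ 2 + ‖v‖ ^ 2 + 2 * (u * (starRingEnd ℂ) v).re := by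
      intro u v
      rw [← Complex.normSq_eq_norm_sq, ← Complex.normSq_eq_norm_sq, ← Complex.normSq_eq_norm_sq,
        Complex.normSq_add]
    rw [e2]
    have e3 : ‖x * x‖ ^ 2 = ‖x‖ ^ 4 := by rw [norm_mul]; ring
    rw [e3]
  -- the cross term integrates to zero
  have h2 : ∫ θ in (0 : ℝ)..1, ((esum A f θ * esum A f θ) *
        (starRingEnd ℂ) (esum B f θ * (2 * esum A f θ + esum B f θ))) = 0 := by
    have e1 : ∀ θ : ℝ, ((esum A f θ * esum A f θ) *
        (starRingEnd ℂ) (esum B f θ * (2 * esum A f θ + esum B f θ)))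
        = 2 * ((esum A f θ * esum A f θ) *
          ((starRingEnd ℂ) (esum B f θ) * (starRingEnd ℂ) (esum A f θ)))
          + ((esum A f θ * esum A f θ) *
          ((starRingEnd ℂ) (esum B f θ) * (starRingEnd ℂ) (esum B f θ))) := by
      intro θ
      rw [map_mul, map_add, map_mul, map_ofNat]
      ring
    simp_rw [e1]
    have hsq : ∀ a ∈ A, ∀ a' ∈ A, ∀ b ∈ B, ∀ b' : ℕ, a ^ 2 + a' ^ 2 ≠ b ^ 2 + b' ^ 2 := by
      intro a ha a' ha' b hb b'
      have g1 := hsep a ha b hb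
      have g2 := hsep a' ha' b hb
      have g3 := hpos b hb
      have g4 : 9 * (a ^ 2 + a' ^ 2) < 9 * (b ^ 2 + b' ^ 2) := by nlinarith
      omega
    rw [intervalIntegral.integral_add, intervalIntegral.integral_const_mul,
      integral_four_zero A A B A f (fun a ha a' ha' b hb b' _ => hsq a ha a' ha' b hb b'),
      integral_four_zero A A B B f (fun a ha a' ha' b hb b' _ => hsq a ha a' ha' b hb b')]
    · simp
    · apply Continuous.intervalIntegrable
      fun_prop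
    · apply Continuous.intervalIntegrable
      fun_prop
  have h3 : ∫ θ in (0 : ℝ)..1, ((esum A f θ * esum A f θ) *
        (starRingEnd ℂ) (esum B f θ * (2 * esum A f θ + esum B f θ))).re = 0 := by
    have hint : IntervalIntegrable (fun θ : ℝ => ((esum A f θ * esum A f θ) *
        (starRingEnd ℂ) (esum B f θ * (2 * esum A f θ + esum B f θ)))) volume 0 1 := by
      apply Continuous.intervalIntegrable
      fun_prop
    have := Complex.reCLM.intervalIntegral_comp_comm hint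
    simp only [Complex.reCLM_apply] at this
    rw [this, h2]
    simp
  unfold I4
  have h4 : ∫ θ in (0 : ℝ)..1, ‖esum (A ∪ B) f θ‖ ^ 4
      = (∫ θ in (0 : ℝ)..1, ‖esum A f θ‖ ^ 4)
      + ∫ θ in (0 : ℝ)..1, ‖esum B f θ * (2 * esum A f θ + esum B f θ)‖ ^ 2 := by
    simp_rw [h1]
    rw [intervalIntegral.integral_add, intervalIntegral.integral_add,
      intervalIntegral.integral_const_mul, h3]
    · ring
    · apply Continuous.intervalIntegrable
      fun_prop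
    · apply Continuous.intervalIntegrable
      fun_prop
    · apply Continuous.intervalIntegrable
      fun_prop
    · apply Continuous.intervalIntegrable
      fun_prop
  rw [h4]
  have h5 : ∫ θ in (0 : ℝ)..1, ‖esum B f θ * (2 * esum A f θ + esum B f θ)‖ ^ 2
      ≤ ∫ θ in (0 : ℝ)..1, (8 * (‖esum A f θ‖ ^ 2 * ‖esum B f θ‖ ^ 2) +
        2 * ‖esum B f θ‖ ^ 4) := by
    apply intervalIntegral.integral_mono_on (by norm_num)
    · apply Continuous.intervalIntegrable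
      fun_prop
    · apply Continuous.intervalIntegrable
      fun_prop
    · intro θ _
      rw [norm_mul, mul_pow]
      have g1 : ‖2 * esum A f θ + esum B f θ‖ ≤ 2 * ‖esum A f θ‖ + ‖esum B f θ‖ := by
        refine (norm_add_le _ _).trans ?_
        rw [norm_mul]
        simp
      have g2 : ‖2 * esum A f θ + esum B f θ‖ ^ 2
          ≤ 8 * ‖esum A f θ‖ ^ 2 + 2 * ‖esum B f θ‖ ^ 2 := by
        have g3 := norm_nonneg (2 * esum A f θ + esum B f θ)
        have g4 := norm_nonneg (esum A f θ)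
        have g5 := norm_nonneg (esum B f θ)
        nlinarith [sq_nonneg (2 * ‖esum A f θ‖ - ‖esum B f θ‖)]
      calc ‖esum B f θ‖ ^ 2 * ‖2 * esum A f θ + esum B f θ‖ ^ 2
          ≤ ‖esum B f θ‖ ^ 2 * (8 * ‖esum A f θ‖ ^ 2 + 2 * ‖esum B f θ‖ ^ 2) := by gcongr
        _ = _ := by ring
  have h6 : ∫ θ in (0 : ℝ)..1, (8 * (‖esum A f θ‖ ^ 2 * ‖esum B f θ‖ ^ 2) +
        2 * ‖esum B f θ‖ ^ 4)
      = 8 * (∫ θ in (0 : ℝ)..1, ‖esum A f θ‖ ^ 2 * ‖esum B f θ‖ ^ 2)
        + 2 * ∫ θ in (0 : ℝ)..1, ‖esum B f θ‖ ^ 4 := by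
    rw [intervalIntegral.integral_add, intervalIntegral.integral_const_mul,
      intervalIntegral.integral_const_mul]
    · apply Continuous.intervalIntegrable
      fun_prop
    · apply Continuous.intervalIntegrable
      fun_prop
  rw [h6] at h5
  linarith

/-- Cauchy–Schwarz for the mixed moment -/
lemma mixed_le (A B : Finset ℕ) (f : ℕ → ℂ) :
    ∫ θ in (0 : ℝ)..1, ‖esum A f θ‖ ^ 2 * ‖esum B f θ‖ ^ 2
      ≤ Real.sqrt (I4 A f) * Real.sqrt (I4 B f) := by
  have hcA := continuous_esum A f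
  have hcB := continuous_esum B f
  set c := ∫ θ in (0 : ℝ)..1, ‖esum A f θ‖ ^ 2 * ‖esum B f θ‖ ^ 2 with hc
  have hc0 : 0 ≤ c := intervalIntegral.integral_nonneg (by norm_num) fun θ _ => by positivity
  -- quadratic polynomial argument
  have key : ∀ t : ℝ, 0 ≤ I4 A f * t ^ 2 + (-2 * c) * t + I4 B f := by
    intro t
    have h1 : I4 A f * t ^ 2 + (-2 * c) * t + I4 B f
        = ∫ θ in (0 : ℝ)..1, (t * ‖esum A f θ‖ ^ 2 - ‖esum B f θ‖ ^ 2) ^ 2 := by
      have e1 : ∀ θ : ℝ, (t * ‖esum A f θ‖ ^ 2 - ‖esum B f θ‖ ^ 2) ^ 2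
          = t ^ 2 * ‖esum A f θ‖ ^ 4 + (-2 * t) * (‖esum A f θ‖ ^ 2 * ‖esum B f θ‖ ^ 2)
            + ‖esum B f θ‖ ^ 4 := fun θ => by ring
      simp_rw [e1]
      rw [intervalIntegral.integral_add, intervalIntegral.integral_add,
        intervalIntegral.integral_const_mul, intervalIntegral.integral_const_mul, hc]
      · unfold I4; ring
      · apply Continuous.intervalIntegrable
        fun_prop
      · apply Continuous.intervalIntegrable
        fun_prop
      · apply Continuous.intervalIntegrable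
        fun_prop
      · apply Continuous.intervalIntegrable
        fun_prop
    rw [h1]
    exact intervalIntegral.integral_nonneg (by norm_num) fun θ _ => sq_nonneg _
  have hd := discrim_le_zero (a := I4 A f) (b := -2 * c) (c := I4 B f)
    (fun t => by have := key t; nlinarith)
  unfold discrim at hd
  have h2 : c ^ 2 ≤ I4 A f * I4 B f := by nlinarith
  rw [← Real.sqrt_mul (I4_nonneg A f)]
  exact Real.le_sqrt_of_sq_le h2

/-- one step of the lacunary decomposition -/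
lemma lac_step {A B : Finset ℕ} (hdisj : Disjoint A B) (hpos : ∀ b ∈ B, 0 < b)
    (hsep : ∀ a ∈ A, ∀ b ∈ B, 3 * a ≤ 2 * b) (f : ℕ → ℂ) :
    Real.sqrt (I4 (A ∪ B) f) ≤ Real.sqrt (I4 A f) + 4 * Real.sqrt (I4 B f) := by
  have h1 := I4_union_le hdisj hpos hsep f
  have h2 := mixed_le A B f
  have sA := Real.sq_sqrt (I4_nonneg A f)
  have sB := Real.sq_sqrt (I4_nonneg B f)
  have nA := Real.sqrt_nonneg (I4 A f)
  have nB := Real.sqrt_nonneg (I4 B f)
  apply Real.sqrt_le_iff.2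
  refine ⟨by positivity, ?_⟩
  nlinarith [mul_nonneg nB nB]


/-- bound in a window -/
lemma I4_window {L M : ℝ} (hL : 3 ≤ L) (hM : 1 ≤ M) (A : Finset ℕ) (hA : ∀ a ∈ A, 0 < a)
    (hAM : ∀ a ∈ A, (a : ℝ) ≤ M) (hwin : ∀ x ∈ A, ∀ y ∈ A, L * ((x : ℝ) - y) ≤ y)
    (f : ℕ → ℂ) :
    I4 A f ≤ (2 + 6 * (Real.log M / Real.log L)) * (∑ a ∈ A, ‖f a‖ ^ 2) ^ 2 :=
  (integral_le_energy A f).trans
    (window_energy hL hM A hA hAM hwin (fun k => ‖f k‖) (fun _ _ => norm_nonneg _))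

/-- the three classes inside a dyadic block -/
def cls (k : ℕ) : ℕ :=
  if 3 * k < 4 * 2 ^ Nat.log 2 k then 0 else if 9 * k < 16 * 2 ^ Nat.log 2 k then 1 else 2

lemma cls_lt (k : ℕ) : cls k < 3 := by
  unfold cls
  split_ifs <;> omega

/-- a block: elements of class `s` in the dyadic block `j` -/
def blk (A : Finset ℕ) (s j : ℕ) : Finset ℕ := A.filter (fun k => cls k = s ∧ Nat.log 2 k = j)

/-- elements of class `s` in the dyadic blocks `< j` -/
def low (A : Finset ℕ) (s j : ℕ) : Finset ℕ := A.filter (fun k => cls k = s ∧ Nat.log 2 k < j)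

lemma log_bounds {k : ℕ} (hk : 0 < k) : 2 ^ Nat.log 2 k ≤ k ∧ k < 2 * 2 ^ Nat.log 2 k := by
  refine ⟨Nat.pow_log_le_self 2 hk.ne', ?_⟩
  have := Nat.lt_pow_succ_log_self (b := 2) (by norm_num) k
  rw [pow_succ] at this
  omega

lemma blk_window {A : Finset ℕ} (hA : ∀ a ∈ A, 0 < a) (s j : ℕ) :
    ∀ x ∈ blk A s j, ∀ y ∈ blk A s j, (3 : ℝ) * ((x : ℝ) - y) ≤ y := by
  intro x hx y hy
  unfold blk at hx hy
  obtain ⟨hxA, hxs, hxj⟩ := mem_filter.1 hx
  obtain ⟨hyA, hys, hyj⟩ := mem_filter.1 hy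
  have bx := log_bounds (hA x hxA)
  have bz := log_bounds (hA y hyA)
  unfold cls at hxs hys
  rw [hxj] at hxs bx
  rw [hyj] at hys bz
  have key : 3 * x ≤ 4 * y := by
    split_ifs at hxs hys <;> omega
  have key' : (3 : ℝ) * x ≤ 4 * y := by exact_mod_cast key
  linarith

lemma low_blk_sep {A : Finset ℕ} (hA : ∀ a ∈ A, 0 < a) (s j : ℕ) :
    ∀ a ∈ low A s j, ∀ b ∈ blk A s j, 3 * a ≤ 2 * b := by
  intro a ha b hb
  unfold low at ha
  unfold blk at hb
  obtain ⟨haA, has, haj⟩ := mem_filter.1 ha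
  obtain ⟨hbA, hbs, hbj⟩ := mem_filter.1 hb
  have b1 := log_bounds (hA a haA)
  have b2 := log_bounds (hA b hbA)
  have hp : 2 * 2 ^ Nat.log 2 a ≤ 2 ^ j := by
    rw [← pow_succ']
    exact Nat.pow_le_pow_right (by norm_num) haj
  unfold cls at has hbs
  rw [hbj] at hbs b2
  split_ifs at has hbs <;> omega

lemma low_succ (A : Finset ℕ) (s j : ℕ) : low A s (j + 1) = low A s j ∪ blk A s j := by
  ext k
  unfold low blk
  simp only [mem_filter, mem_union]
  constructor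
  · rintro ⟨h1, h2, h3⟩
    rcases Nat.lt_succ_iff_lt_or_eq.1 h3 with h | h
    · exact Or.inl ⟨h1, h2, h⟩
    · exact Or.inr ⟨h1, h2, h⟩
  · rintro (⟨h1, h2, h3⟩ | ⟨h1, h2, h3⟩)
    · exact ⟨h1, h2, by omega⟩
    · exact ⟨h1, h2, by omega⟩

lemma low_blk_disj (A : Finset ℕ) (s j : ℕ) : Disjoint (low A s j) (blk A s j) := by
  rw [Finset.disjoint_left]
  intro k h1 h2
  unfold low at h1
  unfold blk at h2
  have := (mem_filter.1 h1).2.2
  have := (mem_filter.1 h2).2.2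
  omega

lemma sqrt_low_le {A : Finset ℕ} (hA : ∀ a ∈ A, 0 < a) {N : ℕ} (hN : 1 ≤ N)
    (hAN : ∀ a ∈ A, a ≤ N) (f : ℕ → ℂ) (s j : ℕ) :
    Real.sqrt (I4 (low A s j) f) ≤
      4 * Real.sqrt (2 + 6 * (Real.log N / Real.log 3)) * ∑ a ∈ low A s j, ‖f a‖ ^ 2 := by
  induction j with
  | zero =>
    have : low A s 0 = ∅ := by
      unfold low
      rw [filter_eq_empty_iff]
      rintro k _ ⟨_, h⟩
      omega
    rw [this]
    unfold I4 esum
    simp
  | succ j ih =>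
    have hblkA : ∀ a ∈ blk A s j, a ∈ A := fun a ha => (mem_filter.1 ha).1
    rw [low_succ]
    have h1 := lac_step (low_blk_disj A s j) (fun b hb => hA b (hblkA b hb))
      (low_blk_sep hA s j) f
    have h2 := I4_window (L := 3) (M := (N : ℝ)) le_rfl (by exact_mod_cast hN) (blk A s j)
      (fun a ha => hA a (hblkA a ha)) (fun a ha => by exact_mod_cast hAN a (hblkA a ha))
      (blk_window hA s j) f
    have h3 : Real.sqrt (I4 (blk A s j) f) ≤
        Real.sqrt (2 + 6 * (Real.log N / Real.log 3)) * ∑ a ∈ blk A s j, ‖f a‖ ^ 2 := by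
      have hs : 0 ≤ ∑ a ∈ blk A s j, ‖f a‖ ^ 2 := sum_nonneg fun _ _ => by positivity
      refine (Real.sqrt_le_sqrt h2).trans ?_
      rw [Real.sqrt_mul' _ (sq_nonneg _), Real.sqrt_sq hs]
    rw [sum_union (low_blk_disj A s j)]
    calc Real.sqrt (I4 (low A s j ∪ blk A s j) f)
        ≤ Real.sqrt (I4 (low A s j) f) + 4 * Real.sqrt (I4 (blk A s j) f) := h1
      _ ≤ _ := by
        rw [mul_add]
        linarith

/-- elements of class `s` -/
def clsSet (A : Finset ℕ) (s : ℕ) : Finset ℕ := A.filter (fun k => cls k = s)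

lemma I4_clsSet_le {A : Finset ℕ} (hA : ∀ a ∈ A, 0 < a) {N : ℕ} (hN : 1 ≤ N)
    (hAN : ∀ a ∈ A, a ≤ N) (f : ℕ → ℂ) (s : ℕ) :
    I4 (clsSet A s) f ≤
      16 * (2 + 6 * (Real.log N / Real.log 3)) * (∑ a ∈ clsSet A s, ‖f a‖ ^ 2) ^ 2 := by
  have h0 : clsSet A s = low A s (N + 1) := by
    unfold clsSet low
    refine filter_congr fun k hk => ?_
    have h1 : Nat.log 2 k ≤ k := Nat.log_le_self 2 k
    have h2 := hAN k hk
    constructor
    · intro h; exact ⟨h, by omega⟩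
    · exact fun h => h.1
  rw [h0]
  have h1 := sqrt_low_le hA hN hAN f s (N + 1)
  have hlog : 0 ≤ Real.log N / Real.log 3 :=
    div_nonneg (Real.log_natCast_nonneg N) (Real.log_nonneg (by norm_num))
  have hK : 0 ≤ 2 + 6 * (Real.log N / Real.log 3) := by positivity
  have h2 := Real.sq_sqrt (I4_nonneg (low A s (N + 1)) f)
  have h3 := Real.sq_sqrt hK
  have h4 := Real.sqrt_nonneg (I4 (low A s (N + 1)) f)
  have h5 := Real.sqrt_nonneg (2 + 6 * (Real.log N / Real.log 3))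
  have h6 : 0 ≤ ∑ a ∈ low A s (N + 1), ‖f a‖ ^ 2 := sum_nonneg fun _ _ => by positivity
  calc I4 (low A s (N + 1)) f = Real.sqrt (I4 (low A s (N + 1)) f) ^ 2 := h2.symm
    _ ≤ (4 * Real.sqrt (2 + 6 * (Real.log N / Real.log 3)) *
        ∑ a ∈ low A s (N + 1), ‖f a‖ ^ 2) ^ 2 := by gcongr
    _ = 16 * (Real.sqrt (2 + 6 * (Real.log N / Real.log 3)) ^ 2) *
        (∑ a ∈ low A s (N + 1), ‖f a‖ ^ 2) ^ 2 := by ring
    _ = _ := by rw [h3]

lemma pow_four_three (x y z : ℝ) : (x + y + z) ^ 4 ≤ 27 * (x ^ 4 + y ^ 4 + z ^ 4) := by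
  have h1 : (x + y + z) ^ 2 ≤ 3 * (x ^ 2 + y ^ 2 + z ^ 2) := by
    nlinarith [sq_nonneg (x - y), sq_nonneg (y - z), sq_nonneg (x - z)]
  have h2 : (x ^ 2 + y ^ 2 + z ^ 2) ^ 2 ≤ 3 * (x ^ 4 + y ^ 4 + z ^ 4) := by
    nlinarith [sq_nonneg (x ^ 2 - y ^ 2), sq_nonneg (y ^ 2 - z ^ 2), sq_nonneg (x ^ 2 - z ^ 2)]
  have h3 : 0 ≤ x ^ 2 + y ^ 2 + z ^ 2 := by positivity
  calc (x + y + z) ^ 4 = ((x + y + z) ^ 2) ^ 2 := by ring
    _ ≤ (3 * (x ^ 2 + y ^ 2 + z ^ 2)) ^ 2 := by gcongr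
    _ = 9 * (x ^ 2 + y ^ 2 + z ^ 2) ^ 2 := by ring
    _ ≤ 27 * (x ^ 4 + y ^ 4 + z ^ 4) := by linarith

/-- **The `L⁴` bound for arbitrary coefficients, full range.** -/
theorem full_range {N : ℕ} (hN : 2 ≤ N) (A : Finset ℕ) (hA : ∀ a ∈ A, 0 < a)
    (hAN : ∀ a ∈ A, a ≤ N) (f : ℕ → ℂ) :
    I4 A f ≤ 4000 * Real.log N * (∑ a ∈ A, ‖f a‖ ^ 2) ^ 2 := by
  have hN1 : 1 ≤ N := by omega
  have hc := fun s => continuous_esum (clsSet A s) f
  -- splitting into the three classes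
  have hsplit : ∀ (g : ℕ → ℂ), ∑ k ∈ A, g k
      = ∑ k ∈ clsSet A 0, g k + ∑ k ∈ clsSet A 1, g k + ∑ k ∈ clsSet A 2, g k := by
    intro g
    rw [← sum_fiberwise_of_maps_to (g := cls) (t := range 3)
      (fun k _ => mem_range.2 (cls_lt k)), sum_range_succ, sum_range_succ, sum_range_succ,
      sum_range_zero, zero_add]
    rfl
  have hsplitR : ∀ (g : ℕ → ℝ), ∑ k ∈ A, g k
      = ∑ k ∈ clsSet A 0, g k + ∑ k ∈ clsSet A 1, g k + ∑ k ∈ clsSet A 2, g k := by
    intro g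
    rw [← sum_fiberwise_of_maps_to (g := cls) (t := range 3)
      (fun k _ => mem_range.2 (cls_lt k)), sum_range_succ, sum_range_succ, sum_range_succ,
      sum_range_zero, zero_add]
    rfl
  have h1 : I4 A f ≤ 27 * (I4 (clsSet A 0) f + I4 (clsSet A 1) f + I4 (clsSet A 2) f) := by
    have e1 : 27 * (I4 (clsSet A 0) f + I4 (clsSet A 1) f + I4 (clsSet A 2) f)
        = ∫ θ in (0 : ℝ)..1, 27 * (‖esum (clsSet A 0) f θ‖ ^ 4 + ‖esum (clsSet A 1) f θ‖ ^ 4 +
          ‖esum (clsSet A 2) f θ‖ ^ 4) := by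
      have := hc 0
      have := hc 1
      have := hc 2
      rw [intervalIntegral.integral_const_mul, intervalIntegral.integral_add,
        intervalIntegral.integral_add]
      · rfl
      all_goals
        apply Continuous.intervalIntegrable
        fun_prop
    rw [e1]
    unfold I4
    apply intervalIntegral.integral_mono_on (by norm_num)
    · apply Continuous.intervalIntegrable
      have := continuous_esum A f
      fun_prop
    · apply Continuous.intervalIntegrable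
      have := hc 0
      have := hc 1
      have := hc 2
      fun_prop
    · intro θ _
      have e2 : esum A f θ = esum (clsSet A 0) f θ + esum (clsSet A 1) f θ +
          esum (clsSet A 2) f θ := hsplit _
      rw [e2]
      calc ‖esum (clsSet A 0) f θ + esum (clsSet A 1) f θ + esum (clsSet A 2) f θ‖ ^ 4
          ≤ (‖esum (clsSet A 0) f θ‖ + ‖esum (clsSet A 1) f θ‖ +
            ‖esum (clsSet A 2) f θ‖) ^ 4 := by
            gcongr
            exact norm_add₃_le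
        _ ≤ _ := pow_four_three _ _ _
  have h2 := I4_clsSet_le hA hN1 hAN f 0
  have h3 := I4_clsSet_le hA hN1 hAN f 1
  have h4 := I4_clsSet_le hA hN1 hAN f 2
  set K := 2 + 6 * (Real.log N / Real.log 3) with hK
  set s0 := ∑ a ∈ clsSet A 0, ‖f a‖ ^ 2 with hs0
  set s1 := ∑ a ∈ clsSet A 1, ‖f a‖ ^ 2 with hs1
  set s2 := ∑ a ∈ clsSet A 2, ‖f a‖ ^ 2 with hs2
  have n0 : 0 ≤ s0 := sum_nonneg fun _ _ => by positivity
  have n1 : 0 ≤ s1 := sum_nonneg fun _ _ => by positivity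
  have n2 : 0 ≤ s2 := sum_nonneg fun _ _ => by positivity
  have hsum : ∑ a ∈ A, ‖f a‖ ^ 2 = s0 + s1 + s2 := hsplitR _
  have hlogN : 0 ≤ Real.log N := Real.log_natCast_nonneg N
  have hlog3 : 0 < Real.log 3 := Real.log_pos (by norm_num)
  have hK0 : 0 ≤ K := by positivity
  have hsq : s0 ^ 2 + s1 ^ 2 + s2 ^ 2 ≤ (s0 + s1 + s2) ^ 2 := by
    nlinarith [mul_nonneg n0 n1, mul_nonneg n0 n2, mul_nonneg n1 n2]
  have h5 : I4 A f ≤ 432 * K * (s0 + s1 + s2) ^ 2 := by
    calc I4 A f ≤ 27 * (16 * K * s0 ^ 2 + 16 * K * s1 ^ 2 + 16 * K * s2 ^ 2) := by linarith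
      _ = 432 * K * (s0 ^ 2 + s1 ^ 2 + s2 ^ 2) := by ring
      _ ≤ 432 * K * (s0 + s1 + s2) ^ 2 := by gcongr
  have h6 : 432 * K ≤ 4000 * Real.log N := by
    have l2 : (0.6931471803 : ℝ) < Real.log 2 := Real.log_two_gt_d9
    have l3 : (1 : ℝ) < Real.log 3 := by
      rw [Real.lt_log_iff_exp_lt (by norm_num)]
      exact lt_trans Real.exp_one_lt_d9 (by norm_num)
    have hN2 : Real.log 2 ≤ Real.log N := Real.log_le_log (by norm_num) (by exact_mod_cast hN)
    have h7 : Real.log N / Real.log 3 ≤ Real.log N := div_le_self hlogN l3.le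
    rw [hK]
    linarith
  rw [hsum]
  calc I4 A f ≤ 432 * K * (s0 + s1 + s2) ^ 2 := h5
    _ ≤ 4000 * Real.log N * (s0 + s1 + s2) ^ 2 := by gcongr

end Pool.Agent.H6.Squares
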