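import Mathlib

/-!
# A positive semidefinite kernel on the nonzero rationals

`lam q = log |num q| + log (den q)` is the `ℓ¹`-type length `∑ p, |v_p q| log p` on `ℚˣ`.
The kernel `lam (x y) - lam (x / y)` is positive semidefinite.
-/

namespace Pool.Agent.H6.Squares

open Finset

/-- the logarithm of `|num q| * den q` -/
noncomputable def lam (q : ℚ) : ℝ := Real.log (q.num.natAbs : ℝ) + Real.log (q.den : ℝ)

lemma log_eq_sum (n : ℕ) (S : Finset ℕ) (hS : n.factorization.support ⊆ S) :
    Real.log n = ∑ p ∈ S, (n.factorization p : ℝ) * Real.log p := by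
  rw [Real.log_nat_eq_sum_factorization, Finsupp.sum_of_support_subset _ hS]
  intro i _
  simp

lemma lam_eq_sum {q : ℚ} (hq : q ≠ 0) (B : ℕ) (h1 : q.num.natAbs < B) (h2 : q.den < B) :
    lam q = ∑ p ∈ (range B).filter Nat.Prime, (|padicValRat p q| : ℤ) * Real.log p := by
  have hn0 : q.num.natAbs ≠ 0 := by simpa using hq
  have hd0 : q.den ≠ 0 := q.den_nz
  have hS1 : q.num.natAbs.factorization.support ⊆ (range B).filter Nat.Prime := by
    intro p hp
    rw [Nat.support_factorization, Nat.mem_primeFactors] at hp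
    rw [mem_filter, mem_range]
    exact ⟨lt_of_le_of_lt (Nat.le_of_dvd (Nat.pos_of_ne_zero hn0) hp.2.1) h1, hp.1⟩
  have hS2 : q.den.factorization.support ⊆ (range B).filter Nat.Prime := by
    intro p hp
    rw [Nat.support_factorization, Nat.mem_primeFactors] at hp
    rw [mem_filter, mem_range]
    exact ⟨lt_of_le_of_lt (Nat.le_of_dvd (Nat.pos_of_ne_zero hd0) hp.2.1) h2, hp.1⟩
  unfold lam
  rw [log_eq_sum _ _ hS1, log_eq_sum _ _ hS2, ← sum_add_distrib]
  refine sum_congr rfl fun p hp => ?_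
  have hprime := (mem_filter.1 hp).2
  rw [← add_mul]
  congr 1
  rw [Nat.factorization_def _ hprime, Nat.factorization_def _ hprime, padicValRat_def, padicValInt]
  have hcop := q.reduced
  have key : padicValNat p q.num.natAbs = 0 ∨ padicValNat p q.den = 0 := by
    by_cases hd : p ∣ q.num.natAbs
    · right
      apply padicValNat.eq_zero_of_not_dvd
      intro hd'
      exact hprime.one_lt.ne' (Nat.dvd_one.1 (hcop ▸ Nat.dvd_gcd hd hd'))
    · left
      exact padicValNat.eq_zero_of_not_dvd hd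
  rcases key with h | h
  · rw [h]; simp
  · rw [h]; simp

/-- the sign vectors of the kernel -/
def sig (k : ℕ) (a : ℤ) : ℝ := if (k : ℤ) < a then 1 else if (k : ℤ) < -a then -1 else 0

lemma sum_sig_nonneg {K : ℕ} {a b : ℤ} (ha : 0 ≤ a) (hb : 0 ≤ b) (haK : a ≤ K) :
    ∑ k ∈ range K, sig k a * sig k b = ((min a b : ℤ) : ℝ) := by
  obtain ⟨m, rfl⟩ := Int.eq_ofNat_of_zero_le ha
  obtain ⟨n, rfl⟩ := Int.eq_ofNat_of_zero_le hb
  have h1 : ∀ k ∈ range K, sig k (m : ℤ) * sig k (n : ℤ) = if k < min m n then 1 else 0 := by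
    intro k _
    unfold sig
    have e1 : ¬ ((k : ℤ) < -(m : ℤ)) := by omega
    have e2 : ¬ ((k : ℤ) < -(n : ℤ)) := by omega
    simp only [e1, e2, if_false, Nat.cast_lt, lt_min_iff]
    by_cases hm : k < m <;> by_cases hn : k < n <;> simp [hm, hn]
  rw [sum_congr rfl h1, ← sum_filter, sum_const, nsmul_eq_mul, mul_one]
  have h2 : (range K).filter (fun k => k < min m n) = range (min m n) := by
    ext k
    simp only [mem_filter, mem_range]
    have : m ≤ K := by exact_mod_cast haK
    omega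
  rw [h2, card_range]
  push_cast
  rfl

lemma sig_neg (k : ℕ) (a : ℤ) : sig k (-a) = - sig k a := by
  unfold sig
  rw [neg_neg]
  by_cases h1 : (k : ℤ) < -a
  · have h2 : ¬ ((k : ℤ) < a) := by omega
    simp [h1, h2]
  · by_cases h2 : (k : ℤ) < a <;> simp [h1, h2]

lemma kernel_eq {K : ℕ} {a b : ℤ} (ha : |a| ≤ K) :
    ((|a + b| : ℤ) : ℝ) - ((|a - b| : ℤ) : ℝ) = 2 * ∑ k ∈ range K, sig k a * sig k b := by
  rcases le_total 0 a with h1 | h1 <;> rcases le_total 0 b with h2 | h2
  · rw [sum_sig_nonneg h1 h2 (le_trans (le_abs_self a) ha)]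
    rw [abs_of_nonneg (by omega : 0 ≤ a + b)]
    rcases le_total a b with h | h
    · rw [abs_of_nonpos (by omega : a - b ≤ 0), min_eq_left h]; push_cast; ring
    · rw [abs_of_nonneg (by omega : 0 ≤ a - b), min_eq_right h]; push_cast; ring
  · have h3 : ∑ k ∈ range K, sig k a * sig k b = - ∑ k ∈ range K, sig k a * sig k (-b) := by
      rw [← sum_neg_distrib]
      refine sum_congr rfl fun k _ => ?_
      rw [sig_neg]; ring
    rw [h3, sum_sig_nonneg h1 (by omega : 0 ≤ -b) (le_trans (le_abs_self a) ha)]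
    rw [abs_of_nonneg (by omega : 0 ≤ a - b)]
    rcases le_total a (-b) with h | h
    · rw [abs_of_nonpos (by omega : a + b ≤ 0), min_eq_left h]; push_cast; ring
    · rw [abs_of_nonneg (by omega : 0 ≤ a + b), min_eq_right h]; push_cast; ring
  · have h3 : ∑ k ∈ range K, sig k a * sig k b = - ∑ k ∈ range K, sig k (-a) * sig k b := by
      rw [← sum_neg_distrib]
      refine sum_congr rfl fun k _ => ?_
      rw [sig_neg]; ring
    have haK : -a ≤ K := le_trans (neg_le_abs a) ha
    rw [h3, sum_sig_nonneg (by omega : 0 ≤ -a) h2 haK]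
    rw [abs_of_nonpos (by omega : a - b ≤ 0)]
    rcases le_total (-a) b with h | h
    · rw [abs_of_nonneg (by omega : 0 ≤ a + b), min_eq_left h]; push_cast; ring
    · rw [abs_of_nonpos (by omega : a + b ≤ 0), min_eq_right h]; push_cast; ring
  · have h3 : ∑ k ∈ range K, sig k a * sig k b = ∑ k ∈ range K, sig k (-a) * sig k (-b) := by
      refine sum_congr rfl fun k _ => ?_
      rw [sig_neg, sig_neg]; ring
    have haK : -a ≤ K := le_trans (neg_le_abs a) ha
    rw [h3, sum_sig_nonneg (by omega : 0 ≤ -a) (by omega : 0 ≤ -b) haK]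
    rw [abs_of_nonpos (by omega : a + b ≤ 0)]
    rcases le_total (-a) (-b) with h | h
    · rw [abs_of_nonneg (by omega : 0 ≤ a - b), min_eq_left h]; push_cast; ring
    · rw [abs_of_nonpos (by omega : a - b ≤ 0), min_eq_right h]; push_cast; ring

/-- positivity of the integer kernel `|a + b| - |a - b|` -/
lemma psd_int {ι : Type*} (s : Finset ι) (z : ι → ℝ) (y : ι → ℤ) :
    0 ≤ ∑ i ∈ s, ∑ j ∈ s, z i * z j * (((|y i + y j| : ℤ) : ℝ) - ((|y i - y j| : ℤ) : ℝ)) := by
  classical
  let K : ℕ := ∑ i ∈ s, (y i).natAbs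
  have hK : ∀ i ∈ s, |y i| ≤ K := by
    intro i hi
    have h1 : (y i).natAbs ≤ K := single_le_sum (f := fun i => (y i).natAbs)
      (fun _ _ => Nat.zero_le _) hi
    have h2 : |y i| = ((y i).natAbs : ℤ) := Int.abs_eq_natAbs _
    rw [h2]
    exact_mod_cast h1
  have h1 : ∑ i ∈ s, ∑ j ∈ s, z i * z j * (((|y i + y j| : ℤ) : ℝ) - ((|y i - y j| : ℤ) : ℝ))
      = 2 * ∑ k ∈ range K, (∑ i ∈ s, z i * sig k (y i)) ^ 2 := by
    calc _ = ∑ i ∈ s, ∑ j ∈ s, ∑ k ∈ range K,
          2 * ((z i * sig k (y i)) * (z j * sig k (y j))) := by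
          refine sum_congr rfl fun i hi => sum_congr rfl fun j _ => ?_
          rw [kernel_eq (hK i hi), ← mul_assoc, mul_sum]
          refine sum_congr rfl fun k _ => ?_
          ring
      _ = ∑ k ∈ range K, ∑ i ∈ s, ∑ j ∈ s, 2 * ((z i * sig k (y i)) * (z j * sig k (y j))) := by
          have : ∀ i ∈ s, ∑ j ∈ s, ∑ k ∈ range K,
              2 * ((z i * sig k (y i)) * (z j * sig k (y j)))
              = ∑ k ∈ range K, ∑ j ∈ s, 2 * ((z i * sig k (y i)) * (z j * sig k (y j))) :=
            fun i _ => sum_comm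
          rw [sum_congr rfl this, sum_comm]
      _ = _ := by
          rw [mul_sum]
          refine sum_congr rfl fun k _ => ?_
          rw [sq, sum_mul_sum, mul_sum]
          refine sum_congr rfl fun i _ => ?_
          rw [mul_sum]
  rw [h1]
  exact mul_nonneg (by norm_num) (sum_nonneg fun k _ => sq_nonneg _)

/-- positivity of the kernel `lam (x y) - lam (x / y)` on nonzero rationals -/
theorem psd_lam {ι : Type*} (s : Finset ι) (z : ι → ℝ) (x : ι → ℚ) (hx : ∀ i ∈ s, x i ≠ 0) :
    0 ≤ ∑ i ∈ s, ∑ j ∈ s, z i * z j * (lam (x i * x j) - lam (x i / x j)) := by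
  classical
  -- a common bound for all numerators and denominators
  let B : ℕ := ∑ i ∈ s, ∑ j ∈ s, ((x i * x j).num.natAbs + (x i * x j).den +
    (x i / x j).num.natAbs + (x i / x j).den) + 1
  have hB : ∀ i ∈ s, ∀ j ∈ s, (x i * x j).num.natAbs + (x i * x j).den +
      (x i / x j).num.natAbs + (x i / x j).den < B := by
    intro i hi j hj
    have h1 := single_le_sum (f := fun j => (x i * x j).num.natAbs + (x i * x j).den +
      (x i / x j).num.natAbs + (x i / x j).den) (fun _ _ => Nat.zero_le _) hj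
    have h2 := single_le_sum (f := fun i => ∑ j ∈ s, ((x i * x j).num.natAbs + (x i * x j).den +
      (x i / x j).num.natAbs + (x i / x j).den)) (fun _ _ => Nat.zero_le _) hi
    exact Nat.lt_succ_of_le (h1.trans h2)
  have h1 : ∀ i ∈ s, ∀ j ∈ s, lam (x i * x j) - lam (x i / x j)
      = ∑ p ∈ (range B).filter Nat.Prime, Real.log p *
        (((|padicValRat p (x i) + padicValRat p (x j)| : ℤ) : ℝ)
          - ((|padicValRat p (x i) - padicValRat p (x j)| : ℤ) : ℝ)) := by
    intro i hi j hj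
    have hb := hB i hi j hj
    rw [lam_eq_sum (mul_ne_zero (hx i hi) (hx j hj)) B (by omega) (by omega),
      lam_eq_sum (div_ne_zero (hx i hi) (hx j hj)) B (by omega) (by omega), ← sum_sub_distrib]
    refine sum_congr rfl fun p hp => ?_
    have hprime := (mem_filter.1 hp).2
    have := Fact.mk hprime
    rw [padicValRat.mul (hx i hi) (hx j hj), padicValRat.div (hx i hi) (hx j hj)]
    ring
  have h2 : ∑ i ∈ s, ∑ j ∈ s, z i * z j * (lam (x i * x j) - lam (x i / x j))
      = ∑ p ∈ (range B).filter Nat.Prime, Real.log p * ∑ i ∈ s, ∑ j ∈ s, z i * z j *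
        (((|padicValRat p (x i) + padicValRat p (x j)| : ℤ) : ℝ)
          - ((|padicValRat p (x i) - padicValRat p (x j)| : ℤ) : ℝ)) := by
    calc _ = ∑ i ∈ s, ∑ j ∈ s, ∑ p ∈ (range B).filter Nat.Prime, Real.log p * (z i * z j *
        (((|padicValRat p (x i) + padicValRat p (x j)| : ℤ) : ℝ)
          - ((|padicValRat p (x i) - padicValRat p (x j)| : ℤ) : ℝ))) := by
          refine sum_congr rfl fun i hi => sum_congr rfl fun j hj => ?_
          rw [h1 i hi j hj, mul_sum]
          refine sum_congr rfl fun k _ => ?_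
          ring
      _ = ∑ p ∈ (range B).filter Nat.Prime, ∑ i ∈ s, ∑ j ∈ s, Real.log p * (z i * z j *
        (((|padicValRat p (x i) + padicValRat p (x j)| : ℤ) : ℝ)
          - ((|padicValRat p (x i) - padicValRat p (x j)| : ℤ) : ℝ))) := by
          have : ∀ i ∈ s, ∑ j ∈ s, ∑ p ∈ (range B).filter Nat.Prime, Real.log p * (z i * z j *
              (((|padicValRat p (x i) + padicValRat p (x j)| : ℤ) : ℝ)
                - ((|padicValRat p (x i) - padicValRat p (x j)| : ℤ) : ℝ)))
              = ∑ p ∈ (range B).filter Nat.Prime, ∑ j ∈ s, Real.log p * (z i * z j *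
              (((|padicValRat p (x i) + padicValRat p (x j)| : ℤ) : ℝ)
                - ((|padicValRat p (x i) - padicValRat p (x j)| : ℤ) : ℝ))) :=
            fun i _ => sum_comm
          rw [sum_congr rfl this, sum_comm]
      _ = _ := by
          refine sum_congr rfl fun p _ => ?_
          rw [mul_sum]
          refine sum_congr rfl fun i _ => ?_
          rw [mul_sum]
  rw [h2]
  refine sum_nonneg fun p _ => mul_nonneg (Real.log_natCast_nonneg p) ?_
  exact psd_int s z (fun i => padicValRat p (x i))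

/-! ### Elementary properties of `lam` -/

lemma lam_neg (q : ℚ) : lam (-q) = lam q := by
  unfold lam
  simp

lemma lam_one : lam 1 = 0 := by
  unfold lam
  simp

lemma lam_sq (q : ℚ) : lam (q ^ 2) = 2 * lam q := by
  unfold lam
  rw [Rat.num_pow, Rat.den_pow, Int.natAbs_pow]
  push_cast
  rw [Real.log_pow, Real.log_pow]
  push_cast
  ring

lemma lam_nonneg (q : ℚ) : 0 ≤ lam q :=
  add_nonneg (Real.log_natCast_nonneg _) (Real.log_natCast_nonneg _)

/-- for integers `m, n ≠ 0`, `lam (m / n) ≤ log |m| + log |n|` -/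
lemma lam_div_le {m n : ℤ} (hm : m ≠ 0) (hn : n ≠ 0) :
    lam ((m : ℚ) / n) ≤ Real.log |(m : ℝ)| + Real.log |(n : ℝ)| := by
  unfold lam
  have h1 : ((m : ℚ) / n).num ∣ m := by rw [← Rat.divInt_eq_div]; exact Rat.num_dvd m hn
  have h2 : (((m : ℚ) / n).den : ℤ) ∣ n := by rw [← Rat.divInt_eq_div]; exact Rat.den_dvd m n
  have h3 : ((m : ℚ) / n).num.natAbs ≤ m.natAbs :=
    Nat.le_of_dvd (Int.natAbs_pos.2 hm) (Int.natAbs_dvd_natAbs.2 h1)
  have h4 : ((m : ℚ) / n).den ≤ n.natAbs :=
    Nat.le_of_dvd (Int.natAbs_pos.2 hn) (by simpa using Int.natAbs_dvd_natAbs.2 h2)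
  have h5 : ((m : ℚ) / n) ≠ 0 := div_ne_zero (by exact_mod_cast hm) (by exact_mod_cast hn)
  have h6 : (0 : ℝ) < ((m : ℚ) / n).num.natAbs := by
    have : ((m : ℚ) / n).num ≠ 0 := Rat.num_ne_zero.2 h5
    exact_mod_cast Int.natAbs_pos.2 this
  have h7 : (0 : ℝ) < ((m : ℚ) / n).den := by exact_mod_cast ((m : ℚ) / n).den_pos
  have e1 : |(m : ℝ)| = (m.natAbs : ℝ) := by
    rw [Nat.cast_natAbs, Int.cast_abs]
  have e2 : |(n : ℝ)| = (n.natAbs : ℝ) := by
    rw [Nat.cast_natAbs, Int.cast_abs]
  rw [e1, e2]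
  exact add_le_add (Real.log_le_log h6 (by exact_mod_cast h3))
    (Real.log_le_log h7 (by exact_mod_cast h4))

end Pool.Agent.H6.Squares
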