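import Pool.Agent.H6.Squares.FullRange

/-!
# The two main theorems, for sets of squares
-/

namespace Pool.Agent.H6.Squares

open Finset

/-- reindexing a set of squares by its set of positive square roots -/
lemma reindex (E : Finset ℤ) (hE : ∀ n ∈ E, ∃ k : ℕ, 0 < k ∧ n = (k : ℤ) ^ 2) :
    ∃ A : Finset ℕ, (∀ k ∈ A, 0 < k ∧ (k : ℤ) ^ 2 ∈ E) ∧
      (∀ g : ℤ → ℂ, ∑ n ∈ E, g n = ∑ k ∈ A, g ((k : ℤ) ^ 2)) ∧
      (∀ g : ℤ → ℝ, ∑ n ∈ E, g n = ∑ k ∈ A, g ((k : ℤ) ^ 2)) := by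
  classical
  choose! r hr using hE
  have hinj : Set.InjOn r E := by
    intro n hn m hm h
    rw [(hr n hn).2, (hr m hm).2, h]
  refine ⟨E.image r, ?_, ?_, ?_⟩
  · intro k hk
    obtain ⟨n, hn, rfl⟩ := mem_image.1 hk
    refine ⟨(hr n hn).1, ?_⟩
    rw [← (hr n hn).2]
    exact hn
  · intro g
    rw [sum_image hinj]
    exact sum_congr rfl fun n hn => by rw [← (hr n hn).2]
  · intro g
    rw [sum_image hinj]
    exact sum_congr rfl fun n hn => by rw [← (hr n hn).2]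

lemma ee_sq (c : ℤ → ℂ) (A : Finset ℕ) (θ : ℝ) :
    ∑ k ∈ A, c ((k : ℤ) ^ 2) *
      Complex.exp (2 * Real.pi * Complex.I * (((k : ℤ) ^ 2 : ℤ) : ℂ) * θ)
      = esum A (fun k => c ((k : ℤ) ^ 2)) θ := rfl

theorem short_main (N : ℕ) (hN : 1 ≤ N) (L : ℝ) (hL : 3 ≤ L) (E : Finset ℤ)
    (hE : ∀ n ∈ E, ∃ k : ℤ, n = k ^ 2 ∧ (N : ℝ) ≤ k ∧ (k : ℝ) ≤ N + N / L) (c : ℤ → ℂ) :
    ∫ θ in (0 : ℝ)..1, ‖∑ n ∈ E, c n * Complex.exp (2 * Real.pi * Complex.I * n * θ)‖ ^ 4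
      ≤ (2 + 6 * (Real.log (2 * N) / Real.log L)) * (∑ n ∈ E, ‖c n‖ ^ 2) ^ 2 := by
  have hNR : (1 : ℝ) ≤ N := by exact_mod_cast hN
  have hL0 : 0 < L := by linarith
  have hE' : ∀ n ∈ E, ∃ k : ℕ, 0 < k ∧ n = (k : ℤ) ^ 2 := by
    intro n hn
    obtain ⟨k, hk, h1, h2⟩ := hE n hn
    have hk0 : (0 : ℝ) < k := by linarith
    have hk0' : 0 < k := by exact_mod_cast hk0
    obtain ⟨m, rfl⟩ := Int.eq_ofNat_of_zero_le hk0'.le
    exact ⟨m, by exact_mod_cast hk0', hk⟩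
  obtain ⟨A, hA, hC, hR⟩ := reindex E hE'
  have hwin : ∀ k ∈ A, (N : ℝ) ≤ k ∧ (k : ℝ) ≤ N + N / L := by
    intro k hk
    obtain ⟨h0, h1⟩ := hA k hk
    obtain ⟨j, hj, h2, h3⟩ := hE _ h1
    have hj0 : (0 : ℝ) < j := by linarith
    have hj0' : 0 < j := by exact_mod_cast hj0
    have : (k : ℤ) = j := by
      have h4 : ((k : ℤ) - j) * (k + j) = 0 := by linear_combination hj
      rcases mul_eq_zero.1 h4 with h5 | h5
      · linarith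
      · have : (0 : ℤ) < k := by exact_mod_cast h0
        linarith
    have h6 : (k : ℝ) = j := by exact_mod_cast this
    rw [h6]
    exact ⟨h2, h3⟩
  have e1 : ∀ θ : ℝ, ∑ n ∈ E, c n * Complex.exp (2 * Real.pi * Complex.I * n * θ)
      = esum A (fun k => c ((k : ℤ) ^ 2)) θ := by
    intro θ
    rw [hC, ee_sq]
  simp_rw [e1]
  rw [hR (fun n => ‖c n‖ ^ 2)]
  refine I4_window (M := 2 * N) hL (by linarith) A (fun k hk => (hA k hk).1) ?_ ?_ _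
  · intro k hk
    have h1 : (N : ℝ) / L ≤ N := div_le_self (by linarith) (by linarith)
    linarith [(hwin k hk).2]
  · intro x hx y hy
    have h1 := (hwin x hx).2
    have h2 := (hwin y hy).1
    have h3 : L * ((x : ℝ) - y) ≤ L * (N / L) := by
      apply mul_le_mul_of_nonneg_left _ hL0.le
      linarith
    rw [mul_div_cancel₀ _ hL0.ne'] at h3
    linarith

theorem full_main (N : ℕ) (hN : 2 ≤ N) (E : Finset ℤ)
    (hE : ∀ n ∈ E, ∃ k : ℤ, n = k ^ 2 ∧ 1 ≤ k ∧ k ≤ N) (c : ℤ → ℂ) :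
    ∫ θ in (0 : ℝ)..1, ‖∑ n ∈ E, c n * Complex.exp (2 * Real.pi * Complex.I * n * θ)‖ ^ 4
      ≤ 4000 * Real.log N * (∑ n ∈ E, ‖c n‖ ^ 2) ^ 2 := by
  have hE' : ∀ n ∈ E, ∃ k : ℕ, 0 < k ∧ n = (k : ℤ) ^ 2 := by
    intro n hn
    obtain ⟨k, hk, h1, h2⟩ := hE n hn
    obtain ⟨m, rfl⟩ := Int.eq_ofNat_of_zero_le (by omega : 0 ≤ k)
    exact ⟨m, by omega, hk⟩
  obtain ⟨A, hA, hC, hR⟩ := reindex E hE'
  have hwin : ∀ k ∈ A, k ≤ N := by
    intro k hk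
    obtain ⟨h0, h1⟩ := hA k hk
    obtain ⟨j, hj, h2, h3⟩ := hE _ h1
    have : (k : ℤ) = j := by
      have h4 : ((k : ℤ) - j) * (k + j) = 0 := by linear_combination hj
      rcases mul_eq_zero.1 h4 with h5 | h5 <;> omega
    omega
  have e1 : ∀ θ : ℝ, ∑ n ∈ E, c n * Complex.exp (2 * Real.pi * Complex.I * n * θ)
      = esum A (fun k => c ((k : ℤ) ^ 2)) θ := by
    intro θ
    rw [hC, ee_sq]
  simp_rw [e1]
  rw [hR (fun n => ‖c n‖ ^ 2)]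
  exact full_range hN A (fun k hk => (hA k hk).1) hwin _

end Pool.Agent.H6.Squares
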