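import Pool.Agent.H6.Squares.Lam

/-!
# The two pairings of a quadruple `a² + b² = c² + d²`
-/

namespace Pool.Agent.H6.Squares

open Finset

lemma lam_inv (q : ℚ) : lam q⁻¹ = lam q := by
  by_cases hq : q = 0
  · rw [hq, inv_zero]
  · unfold lam
    rw [Rat.num_inv, Rat.den_inv]
    have hn : q.num ≠ 0 := Rat.num_ne_zero.2 hq
    rw [if_neg hn, Int.natAbs_mul, Int.natAbs_natCast, Int.natAbs_sign_of_ne_zero hn]
    push_cast
    ring_nf

/-- `lam ((1-r)/(1+r)) ≤ lam r + log (|1-r²|/|r|)` -/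
lemma lam_sigma_le {r : ℚ} (h0 : r ≠ 0) (h1 : r ≠ 1) (h2 : r ≠ -1) :
    lam ((1 - r) / (1 + r)) ≤ lam r + Real.log (|1 - (r : ℝ) ^ 2| / |(r : ℝ)|) := by
  have hd : (r.den : ℚ) ≠ 0 := by exact_mod_cast r.den_nz
  have hr : r = (r.num : ℚ) / r.den := (Rat.num_div_den r).symm
  have hm : (r.den : ℤ) - r.num ≠ 0 := by
    intro h
    apply h1
    rw [hr]
    have : (r.num : ℚ) = r.den := by
      have : r.num = r.den := by omega
      exact_mod_cast this
    rw [this, div_self hd]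
  have hn : (r.den : ℤ) + r.num ≠ 0 := by
    intro h
    apply h2
    rw [hr]
    have : (r.num : ℚ) = -(r.den : ℚ) := by
      have : r.num = -(r.den : ℤ) := by omega
      exact_mod_cast this
    rw [this, neg_div, div_self hd]
  have e : (1 - r) / (1 + r) = (((r.den : ℤ) - r.num : ℤ) : ℚ) / (((r.den : ℤ) + r.num : ℤ) : ℚ) := by
    have hn' : ((r.den : ℚ) + r.num) ≠ 0 := by exact_mod_cast hn
    have h12 : (1 + r) ≠ 0 := by
      intro h
      exact h2 (by linarith)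
    have hmul : (r.num : ℚ) = r * r.den := (Rat.mul_den_eq_num r).symm
    push_cast
    rw [div_eq_div_iff h12 hn']
    linear_combination 2 * hmul
  rw [e]
  refine (lam_div_le hm hn).trans ?_
  -- real computation
  have hdR : (0 : ℝ) < r.den := by exact_mod_cast r.den_pos
  have hnR : (r.num : ℝ) ≠ 0 := by exact_mod_cast Rat.num_ne_zero.2 h0
  have hrR : (r : ℝ) = (r.num : ℝ) / r.den := Rat.cast_def r
  have hmR : ((r.den : ℝ) - r.num) ≠ 0 := by exact_mod_cast hm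
  have hn'R : ((r.den : ℝ) + r.num) ≠ 0 := by exact_mod_cast hn
  have e2 : |1 - (r : ℝ) ^ 2| / |(r : ℝ)|
      = (|(r.den : ℝ) - r.num| * |(r.den : ℝ) + r.num|) / (|(r.num : ℝ)| * r.den) := by
    rw [hrR, abs_div, abs_of_pos hdR, ← abs_mul]
    have : 1 - ((r.num : ℝ) / r.den) ^ 2
        = (((r.den : ℝ) - r.num) * ((r.den : ℝ) + r.num)) / (r.den : ℝ) ^ 2 := by
      field_simp
      ring
    rw [this, abs_div, abs_of_pos (by positivity : (0 : ℝ) < (r.den : ℝ) ^ 2)]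
    have hnR' : |(r.num : ℝ)| ≠ 0 := abs_ne_zero.2 hnR
    field_simp
  rw [e2, Real.log_div (mul_ne_zero (abs_ne_zero.2 hmR) (abs_ne_zero.2 hn'R))
    (mul_ne_zero (abs_ne_zero.2 hnR) hdR.ne'), Real.log_mul (abs_ne_zero.2 hmR)
    (abs_ne_zero.2 hn'R), Real.log_mul (abs_ne_zero.2 hnR) hdR.ne']
  have e3 : lam r = Real.log |(r.num : ℝ)| + Real.log r.den := by
    unfold lam
    rw [Nat.cast_natAbs, Int.cast_abs]
  rw [e3]
  push_cast
  linarith

/-- `lam r ≤ lam ((1-r)/(1+r)) + log (4|r|/|1-r²|)` -/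
lemma le_lam_sigma {r : ℚ} (h0 : r ≠ 0) (h1 : r ≠ 1) (h2 : r ≠ -1) :
    lam r ≤ lam ((1 - r) / (1 + r)) + Real.log (4 * |(r : ℝ)| / |1 - (r : ℝ) ^ 2|) := by
  have h12 : (1 + r) ≠ 0 := by
    intro h
    exact h2 (by linarith)
  have h12' : (1 - r) ≠ 0 := by
    intro h
    exact h1 (by linarith)
  have k0 : (1 - r) / (1 + r) ≠ 0 := div_ne_zero h12' h12
  have k1 : (1 - r) / (1 + r) ≠ 1 := by
    intro h
    rw [div_eq_one_iff_eq h12] at h
    exact h0 (by linarith)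
  have k2 : (1 - r) / (1 + r) ≠ -1 := by
    intro h
    rw [div_eq_iff h12] at h
    linarith
  have h := lam_sigma_le k0 k1 k2
  have e1 : (1 - (1 - r) / (1 + r)) / (1 + (1 - r) / (1 + r)) = r := by
    have : (1 + (1 - r) / (1 + r)) ≠ 0 := by
      intro h'
      exact k2 (by linarith)
    rw [div_eq_iff this]
    field_simp
    ring
  rw [e1] at h
  have e2 : |1 - (((1 - r) / (1 + r) : ℚ) : ℝ) ^ 2| / |(((1 - r) / (1 + r) : ℚ) : ℝ)|
      = 4 * |(r : ℝ)| / |1 - (r : ℝ) ^ 2| := by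
    have hp : (1 + (r : ℝ)) ≠ 0 := by exact_mod_cast h12
    have hm : (1 - (r : ℝ)) ≠ 0 := by exact_mod_cast h12'
    push_cast
    have f1 : 1 - ((1 - (r : ℝ)) / (1 + r)) ^ 2 = 4 * r / (1 + r) ^ 2 := by
      field_simp
      ring
    have f2 : 1 - (r : ℝ) ^ 2 = (1 - r) * (1 + r) := by ring
    rw [f1, f2, abs_div, abs_div, abs_mul, abs_mul, abs_pow]
    have hp' : |1 + (r : ℝ)| ≠ 0 := abs_ne_zero.2 hp
    have hm' : |1 - (r : ℝ)| ≠ 0 := abs_ne_zero.2 hm
    rw [abs_of_pos (by norm_num : (0 : ℝ) < 4)]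
    field_simp
  rw [e2] at h
  exact h

/-- the kernel attached to a quadruple `a² + b² = c² + d²` for the pairing `(a,c), (d,b)` -/
noncomputable def kap (a b c d : ℕ) : ℝ :=
  lam (((a : ℚ) - c) / (b + d)) - lam (((a : ℚ) - c) / (d - b))

/-- the archimedean estimate behind `kap_add_kap_le` -/
lemma arch {L : ℝ} (hL : 3 ≤ L) {a b c d μ r q : ℝ} (hμ : 0 < μ)
    (ha1 : μ ≤ a) (hb1 : μ ≤ b) (hc1 : μ ≤ c) (hd1 : μ ≤ d)
    (ha2 : L * (a - μ) ≤ μ) (hb2 : L * (b - μ) ≤ μ) (hc2 : L * (c - μ) ≤ μ)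
    (hd2 : L * (d - μ) ≤ μ) (hr : r = (a - c) / (b + d)) (hq : q = (a + c) / (b + d)) :
    0 < |1 - r ^ 2| ∧ |1 - q ^ 2| / |q| * (4 * |r| / |1 - r ^ 2|) ≤ 16 / (4 * L ^ 2 - 1) := by
  have hL0 : 0 < L := by linarith
  have ha : 0 < a := by linarith
  have hb : 0 < b := by linarith
  have hc : 0 < c := by linarith
  have hd : 0 < d := by linarith
  have hrabs : |r| ≤ 1 / (2 * L) := by
    rw [hr, abs_div, abs_of_pos (by positivity : (0 : ℝ) < b + d), div_le_div_iff₀ (by positivity)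
      (by positivity)]
    have h3 : L * |a - c| ≤ μ := by
      rcases le_total a c with h' | h'
      · rw [abs_of_nonpos (by linarith)]; nlinarith
      · rw [abs_of_nonneg (by linarith)]; nlinarith
    linarith
  have hr2 : 1 - 1 / (4 * L ^ 2) ≤ |1 - r ^ 2| := by
    have h3 : r ^ 2 ≤ 1 / (4 * L ^ 2) := by
      rw [← sq_abs]
      calc |r| ^ 2 ≤ (1 / (2 * L)) ^ 2 := by gcongr
        _ = 1 / (4 * L ^ 2) := by rw [div_pow, mul_pow]; norm_num
    calc 1 - 1 / (4 * L ^ 2) ≤ 1 - r ^ 2 := by linarith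
      _ ≤ _ := le_abs_self _
  have hL4 : 0 < 4 * L ^ 2 - 1 := by nlinarith
  have hL2 : 0 < 1 - 1 / (4 * L ^ 2) := by
    have : 1 / (4 * L ^ 2) < 1 := by
      rw [div_lt_one (by positivity)]
      linarith
    linarith
  have hr2' : 0 < |1 - r ^ 2| := lt_of_lt_of_le hL2 hr2
  refine ⟨hr2', ?_⟩
  have hqp : 0 < q := by rw [hq]; positivity
  have hqabs : |1 - q ^ 2| / |q| ≤ 2 / L := by
    rw [abs_of_pos hqp]
    have f1 : |1 - q ^ 2| / q = |b + d - a - c| * (1 / (b + d) + 1 / (a + c)) := by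
      rw [hq]
      have hbd : (0 : ℝ) < b + d := by linarith
      have hac : (0 : ℝ) < a + c := by linarith
      have g1 : 1 - ((a + c) / (b + d)) ^ 2
          = (b + d - a - c) * ((a + b + c + d) / (b + d) ^ 2) := by
        field_simp
        ring
      rw [g1, abs_mul, abs_of_pos (by positivity : (0 : ℝ) < (a + b + c + d) / (b + d) ^ 2),
        mul_div_assoc]
      congr 1
      field_simp
      ring
    rw [f1]
    have f2 : |b + d - a - c| ≤ 2 * μ / L := by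
      rw [le_div_iff₀ hL0]
      rcases le_total 0 (b + d - a - c) with h' | h'
      · rw [abs_of_nonneg h']; nlinarith
      · rw [abs_of_nonpos h']; nlinarith
    have f3 : 1 / (b + d) + 1 / (a + c) ≤ 1 / μ := by
      have g1 : 1 / (b + d) ≤ 1 / (2 * μ) := by
        apply one_div_le_one_div_of_le (by positivity); linarith
      have g2 : 1 / (a + c) ≤ 1 / (2 * μ) := by
        apply one_div_le_one_div_of_le (by positivity); linarith
      have g3 : 1 / (2 * μ) + 1 / (2 * μ) = 1 / μ := by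
        rw [← add_div, div_eq_div_iff (by positivity) (by positivity)]; ring
      linarith
    have f4 : 0 ≤ 1 / (b + d) + 1 / (a + c) := by positivity
    calc |b + d - a - c| * (1 / (b + d) + 1 / (a + c)) ≤ (2 * μ / L) * (1 / μ) :=
          mul_le_mul f2 f3 f4 (by positivity)
      _ = 2 / L := by rw [div_mul_div_comm, mul_one, mul_comm L μ, mul_comm 2 μ,
            mul_div_mul_left _ _ hμ.ne']
  have hfr : 4 * |r| / |1 - r ^ 2| ≤ (4 * (1 / (2 * L)) / (1 - 1 / (4 * L ^ 2))) :=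
    div_le_div₀ (by positivity) (by linarith) hL2 hr2
  calc |1 - q ^ 2| / |q| * (4 * |r| / |1 - r ^ 2|)
      ≤ (2 / L) * (4 * (1 / (2 * L)) / (1 - 1 / (4 * L ^ 2))) :=
        mul_le_mul hqabs hfr (by positivity) (by positivity)
    _ = 16 / (4 * L ^ 2 - 1) := by
        have g2 : (1 - 1 / (4 * L ^ 2)) = (4 * L ^ 2 - 1) / (4 * L ^ 2) := by
          rw [sub_div, div_self (by positivity)]
        rw [g2]
        have g3 : (4 * L ^ 2 - 1) ≠ 0 := hL4.ne'
        field_simp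
        ring

/-- algebra behind `kap_add_kap_le` -/
lemma kap_pair {a b c d : ℕ} (ha : 0 < a) (hb : 0 < b) (hc : 0 < c)
    (hd : 0 < d) (h : a ^ 2 + b ^ 2 = c ^ 2 + d ^ 2) (hac : a ≠ c) (had : a ≠ d) :
    ∃ r q : ℚ, r = ((a : ℚ) - c) / (b + d) ∧ q = ((a : ℚ) + c) / (b + d) ∧
      (r ≠ 0 ∧ r ≠ 1 ∧ r ≠ -1) ∧ (q ≠ 0 ∧ q ≠ 1 ∧ q ≠ -1) ∧
      kap a b c d = lam r - lam q ∧
      kap a b d c = lam ((1 - q) / (1 + q)) - lam ((1 - r) / (1 + r)) := by
  have hQ : (a : ℚ) ^ 2 + (b : ℚ) ^ 2 = (c : ℚ) ^ 2 + (d : ℚ) ^ 2 := by exact_mod_cast h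
  have haQ : (0 : ℚ) < a := by exact_mod_cast ha
  have hbQ : (0 : ℚ) < b := by exact_mod_cast hb
  have hcQ : (0 : ℚ) < c := by exact_mod_cast hc
  have hdQ : (0 : ℚ) < d := by exact_mod_cast hd
  have hacQ : (a : ℚ) - c ≠ 0 := sub_ne_zero.2 (by exact_mod_cast hac)
  have hadQ : (a : ℚ) - d ≠ 0 := sub_ne_zero.2 (by exact_mod_cast had)
  have hdb : (d : ℚ) - b ≠ 0 := by
    intro h'
    have : (d : ℚ) = b := by linarith
    rw [this] at hQ
    have h3 : ((a : ℚ) - c) * (a + c) = 0 := by linear_combination hQ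
    rcases mul_eq_zero.1 h3 with h4 | h4
    · exact hacQ h4
    · linarith
  have hcb : (c : ℚ) - b ≠ 0 := by
    intro h'
    have : (c : ℚ) = b := by linarith
    rw [this] at hQ
    have h3 : ((a : ℚ) - d) * (a + d) = 0 := by linear_combination hQ
    rcases mul_eq_zero.1 h3 with h4 | h4
    · exact hadQ h4
    · linarith
  have hbd : (b : ℚ) + d ≠ 0 := by positivity
  have hac' : (a : ℚ) + c ≠ 0 := by positivity
  obtain ⟨r, hr⟩ : ∃ r : ℚ, r = ((a : ℚ) - c) / (b + d) := ⟨_, rfl⟩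
  obtain ⟨q, hq'⟩ : ∃ q : ℚ, q = ((a : ℚ) + c) / (b + d) := ⟨_, rfl⟩
  have hq : q = ((d : ℚ) - b) / (a - c) := by
    rw [hq', div_eq_div_iff hbd hacQ]
    linear_combination hQ
  have r0 : r ≠ 0 := by rw [hr]; exact div_ne_zero hacQ hbd
  have q0 : q ≠ 0 := by rw [hq]; exact div_ne_zero hdb hacQ
  have r1 : r ≠ 1 := by
    intro h'
    rw [hr, div_eq_one_iff_eq hbd] at h'
    have h3 : (a : ℚ) = b + c + d := by linarith
    rw [h3] at hQ
    nlinarith
  have r2 : r ≠ -1 := by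
    intro h'
    rw [hr, div_eq_iff hbd] at h'
    have h3 : (c : ℚ) = a + b + d := by linarith
    rw [h3] at hQ
    nlinarith
  have qpos : 0 < q := by rw [hq']; positivity
  have q1 : q ≠ 1 := by
    intro h'
    rw [hq, div_eq_one_iff_eq hacQ] at h'
    have h3 : (d : ℚ) = a + b - c := by linarith
    rw [h3] at hQ
    have h4 : ((a : ℚ) - c) * (c - b) = 0 := by linear_combination hQ / 2
    rcases mul_eq_zero.1 h4 with h5 | h5
    · exact hacQ h5
    · exact hcb h5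
  have q2 : q ≠ -1 := by
    intro h'
    rw [h'] at qpos
    norm_num at qpos
  refine ⟨r, q, hr, hq', ⟨r0, r1, r2⟩, ⟨q0, q1, q2⟩, ?_, ?_⟩
  · unfold kap
    rw [← hr, hq, ← lam_inv (((d : ℚ) - b) / (a - c)), inv_div]
  · have e1 : ((a : ℚ) - d) / (b + c) = -((1 - q) / (1 + q)) := by
      have hbc : (b : ℚ) + c ≠ 0 := by positivity
      have hden : ((a : ℚ) - c) + (d - b) ≠ 0 := by
        intro h'
        apply q2
        rw [hq, div_eq_iff hacQ]
        linarith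
      have : (1 - q) / (1 + q) = (((a : ℚ) - c) - (d - b)) / (((a : ℚ) - c) + (d - b)) := by
        rw [hq, one_sub_div hacQ, one_add_div hacQ, div_div_div_cancel_right₀ hacQ]
      rw [this, ← neg_div, div_eq_div_iff hbc hden]
      linear_combination hQ
    have e2 : ((a : ℚ) - d) / (c - b) = (1 - r) / (1 + r) := by
      have hden : ((b : ℚ) + d) + (a - c) ≠ 0 := by
        intro h'
        apply r2
        rw [hr, div_eq_iff hbd]
        linarith
      have : (1 - r) / (1 + r) = (((b : ℚ) + d) - (a - c)) / (((b : ℚ) + d) + (a - c)) := by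
        rw [hr, one_sub_div hbd, one_add_div hbd, div_div_div_cancel_right₀ hbd]
      rw [this, div_eq_div_iff hcb hden]
      linear_combination hQ
    unfold kap
    rw [e1, e2, lam_neg]

/-- in a window of relative length `1/L` the two pairings have negative total kernel -/
theorem kap_add_kap_le {L : ℝ} (hL : 3 ≤ L) {a b c d : ℕ} (ha : 0 < a) (hb : 0 < b) (hc : 0 < c)
    (hd : 0 < d) (h : a ^ 2 + b ^ 2 = c ^ 2 + d ^ 2) (hac : a ≠ c) (had : a ≠ d) {μ : ℝ}
    (hμ : 0 < μ) (ha1 : μ ≤ a) (hb1 : μ ≤ b) (hc1 : μ ≤ c) (hd1 : μ ≤ d)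
    (ha2 : L * (a - μ) ≤ μ) (hb2 : L * (b - μ) ≤ μ) (hc2 : L * (c - μ) ≤ μ)
    (hd2 : L * (d - μ) ≤ μ) :
    kap a b c d + kap a b d c ≤ - Real.log ((4 * L ^ 2 - 1) / 16) := by
  obtain ⟨r, q, hr, hq, ⟨r0, r1, r2⟩, ⟨q0, q1, q2⟩, hk1, hk2⟩ := kap_pair ha hb hc hd h hac had
  have h1 := lam_sigma_le q0 q1 q2
  have h2 := le_lam_sigma r0 r1 r2
  have hrR : (r : ℝ) = ((a : ℝ) - c) / (b + d) := by rw [hr]; push_cast; ring
  have hqR : (q : ℝ) = ((a : ℝ) + c) / (b + d) := by rw [hq]; push_cast; ring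
  obtain ⟨h3, h4⟩ := arch hL hμ ha1 hb1 hc1 hd1 ha2 hb2 hc2 hd2 hrR hqR
  have hq2 : 0 < |1 - (q : ℝ) ^ 2| := by
    apply abs_pos.2
    have : (1 - q ^ 2) ≠ 0 := by
      intro h'
      have h4 : (1 - q) * (1 + q) = 0 := by linear_combination h'
      rcases mul_eq_zero.1 h4 with h5 | h5
      · exact q1 (by linarith)
      · exact q2 (by linarith)
    exact_mod_cast this
  have hqa : 0 < |(q : ℝ)| := abs_pos.2 (by exact_mod_cast q0)
  have hra : 0 < |(r : ℝ)| := abs_pos.2 (by exact_mod_cast r0)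
  have hfin : Real.log (|1 - (q : ℝ) ^ 2| / |(q : ℝ)|) +
      Real.log (4 * |(r : ℝ)| / |1 - (r : ℝ) ^ 2|) ≤ - Real.log ((4 * L ^ 2 - 1) / 16) := by
    rw [← Real.log_mul (by positivity) (by positivity), ← Real.log_inv, inv_div]
    exact Real.log_le_log (by positivity) h4
  rw [hk1, hk2]
  linarith

end Pool.Agent.H6.Squares
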