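import Pool.Agent.H6.Squares.Sigma

/-!
# The weighted additive energy of squares in a short window
-/

namespace Pool.Agent.H6.Squares

open Finset

/-- `D (a, c) = a² - c²` -/
def dd (i : ℕ × ℕ) : ℤ := (i.1 : ℤ) ^ 2 - (i.2 : ℤ) ^ 2

/-- the rational `(a - c) / (a + c)` -/
def xx (i : ℕ × ℕ) : ℚ := ((i.1 : ℚ) - i.2) / (i.1 + i.2)

/-- the nontrivial quadruples of `A`, written as pairs of pairs `((a,c),(d,b))`
with `a² - c² = d² - b²`, `a ≠ c`, `(a,c) ≠ (d,b)` -/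
def ntriv (A : Finset ℕ) : Finset ((ℕ × ℕ) × (ℕ × ℕ)) :=
  ((A ×ˢ A) ×ˢ (A ×ˢ A)).filter (fun q => dd q.1 = dd q.2 ∧ q.1.1 ≠ q.1.2 ∧ q.1 ≠ q.2)

lemma mem_ntriv {A : Finset ℕ} {q : (ℕ × ℕ) × (ℕ × ℕ)} : q ∈ ntriv A ↔
    (q.1.1 ∈ A ∧ q.1.2 ∈ A ∧ q.2.1 ∈ A ∧ q.2.2 ∈ A) ∧ dd q.1 = dd q.2 ∧ q.1.1 ≠ q.1.2 ∧
      q.1 ≠ q.2 := by
  unfold ntriv
  simp only [mem_filter, mem_product]
  tauto

lemma ntriv_eq {a b c d : ℕ} (h : dd (a, c) = dd (d, b)) : a ^ 2 + b ^ 2 = c ^ 2 + d ^ 2 := by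
  unfold dd at h
  simp only at h
  zify
  linarith

lemma ntriv_ne {a b c d : ℕ} (h : dd (a, c) = dd (d, b)) (hne : (a, c) ≠ (d, b)) : a ≠ d := by
  rintro rfl
  apply hne
  have h1 := ntriv_eq h
  have h2 : b ^ 2 = c ^ 2 := by omega
  have h3 : b = c := Nat.pow_left_injective (n := 2) (by norm_num) h2
  rw [h3]

/-- the kernel sum over a difference class is nonnegative -/
lemma class_nonneg (A : Finset ℕ) (hA : ∀ a ∈ A, 0 < a) (f : ℕ → ℝ) :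
    0 ≤ ∑ i ∈ A.offDiag, ∑ j ∈ A.offDiag with dd j = dd i,
      (f i.1 * f i.2) * (f j.1 * f j.2) * (lam (xx i * xx j) - lam (xx i / xx j)) := by
  classical
  have h1 : ∑ i ∈ A.offDiag, ∑ j ∈ A.offDiag with dd j = dd i,
      (f i.1 * f i.2) * (f j.1 * f j.2) * (lam (xx i * xx j) - lam (xx i / xx j))
      = ∑ D ∈ A.offDiag.image dd, ∑ i ∈ A.offDiag with dd i = D, ∑ j ∈ A.offDiag with dd j = D,
        (f i.1 * f i.2) * (f j.1 * f j.2) * (lam (xx i * xx j) - lam (xx i / xx j)) := by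
    rw [← sum_fiberwise_of_maps_to (g := dd) (t := A.offDiag.image dd)
      (fun i hi => mem_image_of_mem dd hi)]
    refine sum_congr rfl fun D _ => sum_congr rfl fun i hi => ?_
    rw [(mem_filter.1 hi).2]
  rw [h1]
  refine sum_nonneg fun D _ => ?_
  apply psd_lam _ (fun i => f i.1 * f i.2) xx
  intro i hi
  have h2 := (mem_filter.1 hi).1
  rw [mem_offDiag] at h2
  unfold xx
  have ha : (0 : ℚ) < i.1 := by exact_mod_cast hA _ h2.1
  have hc : (0 : ℚ) < i.2 := by exact_mod_cast hA _ h2.2.1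
  refine div_ne_zero (sub_ne_zero.2 ?_) (by positivity)
  exact_mod_cast h2.2.2

lemma lam_mul_xx {a b c d : ℕ} (ha : 0 < a) (hb : 0 < b) (hc : 0 < c) (hd : 0 < d)
    (h : dd (a, c) = dd (d, b)) (hac : a ≠ c) :
    lam (xx (a, c) * xx (d, b)) - lam (xx (a, c) / xx (d, b)) = 2 * kap a b c d := by
  have h1 : (a : ℚ) ^ 2 - (c : ℚ) ^ 2 = (d : ℚ) ^ 2 - (b : ℚ) ^ 2 := by
    unfold dd at h
    exact_mod_cast h
  have haQ : (0 : ℚ) < a := by exact_mod_cast ha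
  have hbQ : (0 : ℚ) < b := by exact_mod_cast hb
  have hcQ : (0 : ℚ) < c := by exact_mod_cast hc
  have hdQ : (0 : ℚ) < d := by exact_mod_cast hd
  have hacQ : (a : ℚ) - c ≠ 0 := sub_ne_zero.2 (by exact_mod_cast hac)
  have hac' : (a : ℚ) + c ≠ 0 := by positivity
  have hbd : (b : ℚ) + d ≠ 0 := by positivity
  have hdb' : (d : ℚ) + b ≠ 0 := by positivity
  have hdb : (d : ℚ) - b ≠ 0 := by
    intro h'
    have h3 : ((a : ℚ) - c) * (a + c) = 0 := by linear_combination h1 + (d + b) * h'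
    rcases mul_eq_zero.1 h3 with h4 | h4
    · exact hacQ h4
    · exact hac' h4
  have e1 : xx (a, c) * xx (d, b) = (((a : ℚ) - c) / (b + d)) ^ 2 := by
    unfold xx
    simp only
    rw [div_mul_div_comm, div_pow, div_eq_div_iff (mul_ne_zero hac' hdb') (pow_ne_zero _ hbd)]
    linear_combination (-((a : ℚ) - c) * (b + d)) * h1
  have e2 : xx (a, c) / xx (d, b) = (((a : ℚ) - c) / (d - b)) ^ 2 := by
    unfold xx
    simp only
    rw [div_div_div_eq, div_pow, div_eq_div_iff (mul_ne_zero hac' hdb) (pow_ne_zero _ hdb)]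
    linear_combination (-((a : ℚ) - c) * (d - b)) * h1
  rw [e1, e2, lam_sq, lam_sq]
  unfold kap
  ring

lemma kap_diag {a c : ℕ} (hac : a ≠ c) : kap a c c a = lam (xx (a, c)) := by
  unfold kap xx
  simp only
  have hacQ : (a : ℚ) - c ≠ 0 := sub_ne_zero.2 (by exact_mod_cast hac)
  rw [div_self hacQ, lam_one, sub_zero, add_comm (c : ℚ) a]

/-- the kernel sum, split into diagonal and nontrivial part -/
lemma split_nonneg (A : Finset ℕ) (hA : ∀ a ∈ A, 0 < a) (f : ℕ → ℝ) :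
    0 ≤ ∑ i ∈ A.offDiag, (f i.1 * f i.2) ^ 2 * lam (xx i)
      + ∑ q ∈ ntriv A, (f q.1.1 * f q.1.2) * (f q.2.1 * f q.2.2) *
        kap q.1.1 q.2.2 q.1.2 q.2.1 := by
  classical
  have h1 := class_nonneg A hA f
  have h2 : ∑ i ∈ A.offDiag, ∑ j ∈ A.offDiag with dd j = dd i,
      (f i.1 * f i.2) * (f j.1 * f j.2) * (lam (xx i * xx j) - lam (xx i / xx j))
      = 2 * (∑ i ∈ A.offDiag, (f i.1 * f i.2) ^ 2 * lam (xx i)
      + ∑ q ∈ ntriv A, (f q.1.1 * f q.1.2) * (f q.2.1 * f q.2.2) *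
        kap q.1.1 q.2.2 q.1.2 q.2.1) := by
    have e1 : ∀ i ∈ A.offDiag, ∑ j ∈ A.offDiag with dd j = dd i,
        (f i.1 * f i.2) * (f j.1 * f j.2) * (lam (xx i * xx j) - lam (xx i / xx j))
        = 2 * ((f i.1 * f i.2) ^ 2 * lam (xx i)) +
          2 * ∑ j ∈ A.offDiag with dd j = dd i ∧ j ≠ i,
            (f i.1 * f i.2) * (f j.1 * f j.2) * kap i.1 j.2 i.2 j.1 := by
      intro i hi
      have hmem : i ∈ A.offDiag.filter (fun j => dd j = dd i) := mem_filter.2 ⟨hi, rfl⟩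
      rw [← add_sum_erase _ _ hmem]
      have hset : (A.offDiag.filter (fun j => dd j = dd i)).erase i
          = A.offDiag.filter (fun j => dd j = dd i ∧ j ≠ i) := by
        ext j
        simp only [mem_erase, mem_filter]
        tauto
      rw [hset]
      rw [mem_offDiag] at hi
      have hterm : ∀ j ∈ A.offDiag.filter (fun j => dd j = dd i),
          lam (xx i * xx j) - lam (xx i / xx j) = 2 * kap i.1 j.2 i.2 j.1 := by
        intro j hj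
        obtain ⟨hj1, hj2⟩ := mem_filter.1 hj
        rw [mem_offDiag] at hj1
        exact lam_mul_xx (hA _ hi.1) (hA _ hj1.2.1) (hA _ hi.2.1) (hA _ hj1.1) hj2.symm hi.2.2
      congr 1
      · rw [hterm i hmem, kap_diag hi.2.2]
        ring
      · rw [mul_sum]
        refine sum_congr rfl fun j hj => ?_
        obtain ⟨hj1, hj2⟩ := mem_filter.1 hj
        rw [hterm j (mem_filter.2 ⟨hj1, hj2.1⟩)]
        ring
    rw [sum_congr rfl e1, sum_add_distrib, ← mul_sum, ← mul_sum, mul_add]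
    congr 2
    rw [sum_sigma']
    refine sum_bij' (fun p _ => (p.1, p.2)) (fun q _ => ⟨q.1, q.2⟩) ?_ ?_ ?_ ?_ ?_
    · rintro ⟨i, j⟩ hp
      simp only [mem_sigma, mem_filter, mem_offDiag] at hp
      rw [mem_ntriv]
      exact ⟨⟨hp.1.1, hp.1.2.1, hp.2.1.1, hp.2.1.2.1⟩, hp.2.2.1.symm, hp.1.2.2,
        fun h => hp.2.2.2 h.symm⟩
    · rintro ⟨i, j⟩ hq
      rw [mem_ntriv] at hq
      simp only [mem_sigma, mem_filter, mem_offDiag]
      obtain ⟨⟨h1, h2, h3, h4⟩, h5, h6, h7⟩ := hq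
      refine ⟨⟨h1, h2, h6⟩, ⟨h3, h4, ?_⟩, h5.symm, fun h => h7 h.symm⟩
      intro h8
      simp only at h5 h6 h8
      apply h6
      have h9 : dd i = 0 := by rw [h5]; unfold dd; rw [h8]; ring
      unfold dd at h9
      have h10 : (i.1 : ℤ) ^ 2 = (i.2 : ℤ) ^ 2 := by linarith
      have h11 : i.1 ^ 2 = i.2 ^ 2 := by exact_mod_cast h10
      exact Nat.pow_left_injective (n := 2) (by norm_num) h11
    · rintro ⟨i, j⟩ _
      rfl
    · rintro ⟨i, j⟩ _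
      rfl
    · rintro ⟨i, j⟩ _
      rfl
  rw [h2] at h1
  linarith

/-- symmetrisation of the nontrivial part under exchanging `c` and `d` -/
lemma ntriv_symm (A : Finset ℕ) (f : ℕ → ℝ) :
    ∑ q ∈ ntriv A, (f q.1.1 * f q.1.2) * (f q.2.1 * f q.2.2) * kap q.1.1 q.2.2 q.1.2 q.2.1
      = ∑ q ∈ ntriv A, (f q.1.1 * f q.1.2) * (f q.2.1 * f q.2.2) *
          kap q.1.1 q.2.2 q.2.1 q.1.2 := by
  refine sum_bij' (fun q _ => ((q.1.1, q.2.1), (q.1.2, q.2.2)))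
    (fun q _ => ((q.1.1, q.2.1), (q.1.2, q.2.2))) ?_ ?_ ?_ ?_ ?_
  · rintro ⟨⟨a, c⟩, ⟨d, b⟩⟩ hq
    rw [mem_ntriv] at hq ⊢
    simp only at hq ⊢
    obtain ⟨⟨h1, h2, h3, h4⟩, h5, h6, h7⟩ := hq
    have h8 := ntriv_ne h5 h7
    refine ⟨⟨h1, h3, h2, h4⟩, ?_, h8, ?_⟩
    · unfold dd at h5 ⊢
      simp only at h5 ⊢
      linarith
    · intro h9
      rw [Prod.mk.injEq] at h9
      exact h6 h9.1
  · rintro ⟨⟨a, c⟩, ⟨d, b⟩⟩ hq
    rw [mem_ntriv] at hq ⊢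
    simp only at hq ⊢
    obtain ⟨⟨h1, h2, h3, h4⟩, h5, h6, h7⟩ := hq
    have h8 := ntriv_ne h5 h7
    refine ⟨⟨h1, h3, h2, h4⟩, ?_, h8, ?_⟩
    · unfold dd at h5 ⊢
      simp only at h5 ⊢
      linarith
    · intro h9
      rw [Prod.mk.injEq] at h9
      exact h6 h9.1
  · rintro ⟨⟨a, c⟩, ⟨d, b⟩⟩ _
    rfl
  · rintro ⟨⟨a, c⟩, ⟨d, b⟩⟩ _
    rfl
  · rintro ⟨⟨a, c⟩, ⟨d, b⟩⟩ _
    simp only
    ring


/-- all quadruples `((a,c),(d,b))` of `A` with `a² - c² = d² - b²` -/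
def allq (A : Finset ℕ) : Finset ((ℕ × ℕ) × (ℕ × ℕ)) :=
  ((A ×ˢ A) ×ˢ (A ×ˢ A)).filter (fun q => dd q.1 = dd q.2)

lemma lam_xx_le {a c : ℕ} (ha : 0 < a) (hc : 0 < c) (hac : a ≠ c) {M : ℝ} (haM : (a : ℝ) ≤ M)
    (hcM : (c : ℝ) ≤ M) : lam (xx (a, c)) ≤ 2 * Real.log M := by
  have h1 : xx (a, c) = (((a : ℤ) - c : ℤ) : ℚ) / (((a : ℤ) + c : ℤ) : ℚ) := by
    unfold xx
    push_cast
    rfl
  have h2 : ((a : ℤ) - c : ℤ) ≠ 0 := sub_ne_zero.2 (by exact_mod_cast hac)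
  have h3 : ((a : ℤ) + c : ℤ) ≠ 0 := by positivity
  rw [h1]
  refine (lam_div_le h2 h3).trans ?_
  have haR : (0 : ℝ) < a := by exact_mod_cast ha
  have hcR : (0 : ℝ) < c := by exact_mod_cast hc
  have h2' : |(((a : ℤ) - c : ℤ) : ℝ)| ≠ 0 := abs_ne_zero.2 (by exact_mod_cast h2)
  have h3' : |(((a : ℤ) + c : ℤ) : ℝ)| ≠ 0 := abs_ne_zero.2 (by exact_mod_cast h3)
  have hM : 0 < M := lt_of_lt_of_le haR haM
  rw [← Real.log_mul h2' h3', ← abs_mul]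
  have h4 : 2 * Real.log M = Real.log (M ^ 2) := by rw [Real.log_pow]; norm_num
  rw [h4]
  apply Real.log_le_log
  · rw [abs_mul]
    positivity
  · push_cast
    have : ((a : ℝ) - c) * (a + c) = (a : ℝ) ^ 2 - (c : ℝ) ^ 2 := by ring
    rw [this, abs_le]
    constructor <;> nlinarith

/-- the main inequality, for the nontrivial quadruples -/
theorem ntriv_bound {L M : ℝ} (hL : 3 ≤ L) (hM : 1 ≤ M) (A : Finset ℕ) (hA : ∀ a ∈ A, 0 < a)
    (hAM : ∀ a ∈ A, (a : ℝ) ≤ M) (hwin : ∀ x ∈ A, ∀ y ∈ A, L * ((x : ℝ) - y) ≤ y)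
    (f : ℕ → ℝ) (hf : ∀ a ∈ A, 0 ≤ f a) :
    Real.log ((4 * L ^ 2 - 1) / 16) *
      ∑ q ∈ ntriv A, (f q.1.1 * f q.1.2) * (f q.2.1 * f q.2.2)
      ≤ 4 * Real.log M * (∑ a ∈ A, f a ^ 2) ^ 2 := by
  have h1 := split_nonneg A hA f
  have h2 := ntriv_symm A f
  -- upper bound for the symmetrised sum
  have h3 : ∑ q ∈ ntriv A, (f q.1.1 * f q.1.2) * (f q.2.1 * f q.2.2) *
        kap q.1.1 q.2.2 q.1.2 q.2.1 +
      ∑ q ∈ ntriv A, (f q.1.1 * f q.1.2) * (f q.2.1 * f q.2.2) *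
          kap q.1.1 q.2.2 q.2.1 q.1.2
      ≤ - (Real.log ((4 * L ^ 2 - 1) / 16) *
        ∑ q ∈ ntriv A, (f q.1.1 * f q.1.2) * (f q.2.1 * f q.2.2)) := by
    rw [← sum_add_distrib, mul_sum, ← sum_neg_distrib]
    refine sum_le_sum ?_
    rintro ⟨⟨a, c⟩, ⟨d, b⟩⟩ hq
    rw [mem_ntriv] at hq
    simp only at hq ⊢
    obtain ⟨⟨ha, hc, hd, hb⟩, h5, h6, h7⟩ := hq
    have h8 := ntriv_ne h5 h7
    have h9 := ntriv_eq h5
    obtain ⟨μ, hμA, m1, m2, m3, m4⟩ : ∃ μ : ℕ, μ ∈ A ∧ μ ≤ a ∧ μ ≤ b ∧ μ ≤ c ∧ μ ≤ d := by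
      refine ⟨min (min a b) (min c d), ?_, by omega, by omega, by omega, by omega⟩
      rcases min_choice (min a b) (min c d) with h | h <;> rw [h]
      · rcases min_choice a b with h' | h' <;> rw [h'] <;> assumption
      · rcases min_choice c d with h' | h' <;> rw [h'] <;> assumption
    have hk := kap_add_kap_le hL (hA _ ha) (hA _ hb) (hA _ hc) (hA _ hd) h9 h6 h8
      (μ := (μ : ℝ)) (by exact_mod_cast hA _ hμA) (by exact_mod_cast m1) (by exact_mod_cast m2)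
      (by exact_mod_cast m3) (by exact_mod_cast m4) (hwin _ ha _ hμA) (hwin _ hb _ hμA)
      (hwin _ hc _ hμA) (hwin _ hd _ hμA)
    have hF : 0 ≤ (f a * f c) * (f d * f b) :=
      mul_nonneg (mul_nonneg (hf _ ha) (hf _ hc)) (mul_nonneg (hf _ hd) (hf _ hb))
    have := mul_le_mul_of_nonneg_left hk hF
    linarith
  -- the diagonal
  have h4 : ∑ i ∈ A.offDiag, (f i.1 * f i.2) ^ 2 * lam (xx i)
      ≤ 2 * Real.log M * (∑ a ∈ A, f a ^ 2) ^ 2 := by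
    have e1 : ∑ i ∈ A.offDiag, (f i.1 * f i.2) ^ 2 * lam (xx i)
        ≤ ∑ i ∈ A.offDiag, (f i.1 * f i.2) ^ 2 * (2 * Real.log M) := by
      refine sum_le_sum ?_
      rintro ⟨a, c⟩ hi
      rw [mem_offDiag] at hi
      exact mul_le_mul_of_nonneg_left (lam_xx_le (hA _ hi.1) (hA _ hi.2.1) hi.2.2
        (hAM _ hi.1) (hAM _ hi.2.1)) (sq_nonneg _)
    have e2 : ∑ i ∈ A.offDiag, (f i.1 * f i.2) ^ 2 ≤ (∑ a ∈ A, f a ^ 2) ^ 2 := by
      rw [sq, sum_mul_sum, ← sum_product']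
      have hsub : A.offDiag ⊆ A ×ˢ A := fun i hi => by
        rw [mem_offDiag] at hi
        exact mem_product.2 ⟨hi.1, hi.2.1⟩
      refine (sum_le_sum_of_subset_of_nonneg hsub ?_).trans ?_
      · intro i _ _
        exact sq_nonneg _
      · exact le_of_eq (sum_congr rfl fun i _ => by ring)
    rw [← sum_mul] at e1
    have hlog : 0 ≤ Real.log M := Real.log_nonneg hM
    nlinarith
  linarith

/-- the total weighted energy is at most the trivial part plus the nontrivial part -/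
lemma allq_le (A : Finset ℕ) (f : ℕ → ℝ) (hf : ∀ a ∈ A, 0 ≤ f a) :
    ∑ q ∈ allq A, (f q.1.1 * f q.1.2) * (f q.2.1 * f q.2.2)
      ≤ 2 * (∑ a ∈ A, f a ^ 2) ^ 2 +
        ∑ q ∈ ntriv A, (f q.1.1 * f q.1.2) * (f q.2.1 * f q.2.2) := by
  classical
  have hnn : ∀ q ∈ allq A, 0 ≤ (f q.1.1 * f q.1.2) * (f q.2.1 * f q.2.2) := by
    intro q hq
    unfold allq at hq
    simp only [mem_filter, mem_product] at hq
    exact mul_nonneg (mul_nonneg (hf _ hq.1.1.1) (hf _ hq.1.1.2))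
      (mul_nonneg (hf _ hq.1.2.1) (hf _ hq.1.2.2))
  -- three pieces
  have hsub : allq A ⊆ ((A ×ˢ A).image (fun p => ((p.1, p.1), (p.2, p.2)))) ∪
      ((A ×ˢ A).image (fun p => (p, p))) ∪ ntriv A := by
    rintro ⟨⟨a, c⟩, ⟨d, b⟩⟩ hq
    unfold allq at hq
    simp only [mem_filter, mem_product] at hq
    obtain ⟨⟨⟨ha, hc⟩, hd, hb⟩, h5⟩ := hq
    simp only [mem_union, mem_image, mem_product, mem_ntriv]
    by_cases hac : a = c
    · left; left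
      subst hac
      have h6 : (d : ℤ) ^ 2 = (b : ℤ) ^ 2 := by
        unfold dd at h5
        simp only at h5
        linarith
      have h7 : d ^ 2 = b ^ 2 := by exact_mod_cast h6
      have h8 : d = b := Nat.pow_left_injective (n := 2) (by norm_num) h7
      subst h8
      exact ⟨(a, d), ⟨ha, hd⟩, rfl⟩
    · by_cases hne : (a, c) = (d, b)
      · left; right
        exact ⟨(a, c), ⟨ha, hc⟩, by rw [Prod.mk.injEq]; exact ⟨rfl, hne⟩⟩
      · right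
        exact ⟨⟨ha, hc, hd, hb⟩, h5, hac, hne⟩
  have h1 : ∑ q ∈ allq A, (f q.1.1 * f q.1.2) * (f q.2.1 * f q.2.2) ≤
      ∑ q ∈ (A ×ˢ A).image (fun p => ((p.1, p.1), (p.2, p.2))),
        (f q.1.1 * f q.1.2) * (f q.2.1 * f q.2.2) +
      ∑ q ∈ (A ×ˢ A).image (fun p => (p, p)), (f q.1.1 * f q.1.2) * (f q.2.1 * f q.2.2) +
      ∑ q ∈ ntriv A, (f q.1.1 * f q.1.2) * (f q.2.1 * f q.2.2) := by
    have hnn2 : ∀ q ∈ ((A ×ˢ A).image (fun p => ((p.1, p.1), (p.2, p.2)))) ∪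
      ((A ×ˢ A).image (fun p => (p, p))) ∪ ntriv A,
        0 ≤ (f q.1.1 * f q.1.2) * (f q.2.1 * f q.2.2) := by
      rintro ⟨⟨a, c⟩, ⟨d, b⟩⟩ hq
      have : a ∈ A ∧ c ∈ A ∧ d ∈ A ∧ b ∈ A := by
        simp only [mem_union, mem_image, mem_product, mem_ntriv, Prod.mk.injEq] at hq
        rcases hq with (⟨p, hp, ⟨h1, h2⟩, h3, h4⟩ | ⟨p, hp, h1, h2⟩) | hq
        · subst h1 h3
          rw [← h2, ← h4]
          exact ⟨hp.1, hp.1, hp.2, hp.2⟩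
        · obtain ⟨p1, p2⟩ := p
          rw [Prod.mk.injEq] at h1 h2
          rw [← h1.1, ← h1.2, ← h2.1, ← h2.2]
          exact ⟨hp.1, hp.2, hp.1, hp.2⟩
        · exact ⟨hq.1.1, hq.1.2.1, hq.1.2.2.1, hq.1.2.2.2⟩
      exact mul_nonneg (mul_nonneg (hf _ this.1) (hf _ this.2.1))
        (mul_nonneg (hf _ this.2.2.1) (hf _ this.2.2.2))
    refine (sum_le_sum_of_subset_of_nonneg hsub fun q hq _ => hnn2 q hq).trans ?_
    have u1 : ∀ (s t : Finset ((ℕ × ℕ) × (ℕ × ℕ))) (F : (ℕ × ℕ) × (ℕ × ℕ) → ℝ),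
        (∀ q ∈ s ∪ t, 0 ≤ F q) → ∑ q ∈ s ∪ t, F q ≤ ∑ q ∈ s, F q + ∑ q ∈ t, F q := by
      intro s t F hF
      rw [← sum_union_inter]
      have : 0 ≤ ∑ q ∈ s ∩ t, F q :=
        sum_nonneg fun q hq => hF q (mem_union_left _ (mem_inter.1 hq).1)
      linarith
    refine (u1 _ _ _ hnn2).trans ?_
    refine add_le_add ?_ le_rfl
    exact u1 _ _ _ fun q hq => hnn2 q (mem_union_left _ hq)
  have h2 : ∑ q ∈ (A ×ˢ A).image (fun p => ((p.1, p.1), (p.2, p.2))),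
        (f q.1.1 * f q.1.2) * (f q.2.1 * f q.2.2) = (∑ a ∈ A, f a ^ 2) ^ 2 := by
    rw [sum_image]
    · rw [sq, sum_mul_sum, ← sum_product']
      refine sum_congr rfl fun p _ => ?_
      simp only
      ring
    · rintro ⟨p1, p2⟩ _ ⟨q1, q2⟩ _ h
      simp only [Prod.mk.injEq] at h ⊢
      exact ⟨h.1.1, h.2.1⟩
  have h3 : ∑ q ∈ (A ×ˢ A).image (fun p => (p, p)),
        (f q.1.1 * f q.1.2) * (f q.2.1 * f q.2.2) = (∑ a ∈ A, f a ^ 2) ^ 2 := by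
    rw [sum_image]
    · rw [sq, sum_mul_sum, ← sum_product']
      refine sum_congr rfl fun p _ => ?_
      simp only
      ring
    · rintro p _ q _ h
      simp only [Prod.mk.injEq] at h
      exact h.1
  rw [h2, h3] at h1
  linarith

/-- `log ((4L²-1)/16) ≥ (2/3) log L` for `L ≥ 3` -/
lemma log_window {L : ℝ} (hL : 3 ≤ L) :
    (2 / 3) * Real.log L ≤ Real.log ((4 * L ^ 2 - 1) / 16) := by
  have hL0 : 0 < L := by linarith
  -- equivalent to `L ^ 2 ≤ ((4L²-1)/16) ^ 3`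
  have h1 : L ^ 2 ≤ ((4 * L ^ 2 - 1) / 16) ^ 3 := by
    have h2 : (35 / 144) * L ^ 2 ≤ (4 * L ^ 2 - 1) / 16 := by nlinarith
    have h3 : ((35 / 144) * L ^ 2) ^ 3 ≤ ((4 * L ^ 2 - 1) / 16) ^ 3 := by gcongr
    have h4 : L ^ 2 ≤ ((35 / 144) * L ^ 2) ^ 3 := by
      have h5 : ((35 / 144) * L ^ 2) ^ 3 = (35 / 144) ^ 3 * L ^ 4 * L ^ 2 := by ring
      rw [h5]
      have h6 : (81 : ℝ) ≤ L ^ 4 := by nlinarith [sq_nonneg (L ^ 2 - 9), sq_nonneg (L - 3)]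
      have h7 : (1 : ℝ) ≤ (35 / 144) ^ 3 * L ^ 4 := by
        calc (1 : ℝ) ≤ (35 / 144) ^ 3 * 81 := by norm_num
          _ ≤ (35 / 144) ^ 3 * L ^ 4 := by gcongr
      nlinarith [sq_nonneg L]
    exact h4.trans h3
  have h5 : Real.log (L ^ 2) ≤ Real.log (((4 * L ^ 2 - 1) / 16) ^ 3) :=
    Real.log_le_log (by positivity) h1
  rw [Real.log_pow, Real.log_pow] at h5
  push_cast at h5
  linarith

/-- **Energy of squares in a short window, weighted form.** -/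
theorem window_energy {L M : ℝ} (hL : 3 ≤ L) (hM : 1 ≤ M) (A : Finset ℕ) (hA : ∀ a ∈ A, 0 < a)
    (hAM : ∀ a ∈ A, (a : ℝ) ≤ M) (hwin : ∀ x ∈ A, ∀ y ∈ A, L * ((x : ℝ) - y) ≤ y)
    (f : ℕ → ℝ) (hf : ∀ a ∈ A, 0 ≤ f a) :
    ∑ q ∈ allq A, (f q.1.1 * f q.1.2) * (f q.2.1 * f q.2.2)
      ≤ (2 + 6 * (Real.log M / Real.log L)) * (∑ a ∈ A, f a ^ 2) ^ 2 := by
  have h1 := allq_le A f hf
  have h2 := ntriv_bound hL hM A hA hAM hwin f hf
  have h3 := log_window hL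
  have hlogL : 0 < Real.log L := Real.log_pos (by linarith)
  have hlogM : 0 ≤ Real.log M := Real.log_nonneg hM
  set W := ∑ q ∈ ntriv A, (f q.1.1 * f q.1.2) * (f q.2.1 * f q.2.2) with hW
  have hW0 : 0 ≤ W := by
    refine sum_nonneg fun q hq => ?_
    rw [mem_ntriv] at hq
    exact mul_nonneg (mul_nonneg (hf _ hq.1.1) (hf _ hq.1.2.1))
      (mul_nonneg (hf _ hq.1.2.2.1) (hf _ hq.1.2.2.2))
  have h4 : (2 / 3) * Real.log L * W ≤ 4 * Real.log M * (∑ a ∈ A, f a ^ 2) ^ 2 :=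
    (mul_le_mul_of_nonneg_right h3 hW0).trans h2
  have h5 : W ≤ 6 * (Real.log M / Real.log L) * (∑ a ∈ A, f a ^ 2) ^ 2 := by
    rw [mul_div_assoc', div_mul_eq_mul_div, le_div_iff₀ hlogL]
    linarith
  linarith

end Pool.Agent.H6.Squares
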